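import Pool.Agent.Helper33.P5.Sheet6
open MeasureTheory Metric Set Filter Topology
open scoped ENNReal NNReal

/-! Dual certificates for the six points of `Sheet6` (printed by a program). -/

namespace H11ST
namespace P6
open P5

variable {d : ℕ} {e f : E d}

theorem c031524 (he : ‖e‖ = 1) (hf : ‖f‖ = 1) (hef : inner ℝ e f = (0 : ℝ)) :
    RA e f 0 3 1 5 2 4 := by
  intro T h
  have k := NA_lower h
    (ea := pt e f (3 / 10) (4 / 5)) (eb := pt e f (-(3 / 10)) (-(4 / 5)))
    (em := pt e f (-(3 / 10)) (4 / 5)) (ek := pt e f (1 / 2) 0)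
    (ec := pt e f (-(1 / 2)) 0) (ed := pt e f (3 / 10) (-(4 / 5)))
    (nle he hf hef (by norm_num)) (nle he hf hef (by norm_num)) (nle he hf hef (by norm_num))
    (nle he hf hef (by norm_num)) (nle he hf hef (by norm_num)) (nle he hf hef (by norm_num))
    (by rw [pt_add, pt_add, pt_add, pt_add, pt_add]; norm_num [pt_zero])
    (by rw [pt_add]; exact nle he hf hef (by norm_num))
    (by rw [pt_add, pt_add]; exact nle he hf hef (by norm_num))
    (by rw [pt_add]; exact nle he hf hef (by norm_num))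
  simp only [Q0, Q1, Q2, Q3, Q4, Q5, inner_pt he hf hef] at k
  norm_num at k
  linarith

theorem c035124 (he : ‖e‖ = 1) (hf : ‖f‖ = 1) (hef : inner ℝ e f = (0 : ℝ)) :
    RA e f 0 3 5 1 2 4 := by
  intro T h
  have k := NA_lower h
    (ea := pt e f (1 / 5) (9 / 10)) (eb := pt e f (-(3 / 10)) (-(7 / 10)))
    (em := pt e f (1 / 2) (-(1 / 10))) (ek := pt e f (-(1 / 5)) (7 / 10))
    (ec := pt e f (-(1 / 2)) (-(1 / 10))) (ed := pt e f (3 / 10) (-(7 / 10)))
    (nle he hf hef (by norm_num)) (nle he hf hef (by norm_num)) (nle he hf hef (by norm_num))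
    (nle he hf hef (by norm_num)) (nle he hf hef (by norm_num)) (nle he hf hef (by norm_num))
    (by rw [pt_add, pt_add, pt_add, pt_add, pt_add]; norm_num [pt_zero])
    (by rw [pt_add]; exact nle he hf hef (by norm_num))
    (by rw [pt_add, pt_add]; exact nle he hf hef (by norm_num))
    (by rw [pt_add]; exact nle he hf hef (by norm_num))
  simp only [Q0, Q1, Q2, Q3, Q4, Q5, inner_pt he hf hef] at k
  norm_num at k
  linarith

theorem c031425 (he : ‖e‖ = 1) (hf : ‖f‖ = 1) (hef : inner ℝ e f = (0 : ℝ)) :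
    RA e f 0 3 1 4 2 5 := by
  intro T h
  have k := NA_lower h
    (ea := pt e f (3 / 10) (4 / 5)) (eb := pt e f (-(3 / 10)) (-(4 / 5)))
    (em := pt e f (-(3 / 10)) (4 / 5)) (ek := pt e f (3 / 10) (-(4 / 5)))
    (ec := pt e f (-(1 / 2)) 0) (ed := pt e f (1 / 2) 0)
    (nle he hf hef (by norm_num)) (nle he hf hef (by norm_num)) (nle he hf hef (by norm_num))
    (nle he hf hef (by norm_num)) (nle he hf hef (by norm_num)) (nle he hf hef (by norm_num))
    (by rw [pt_add, pt_add, pt_add, pt_add, pt_add]; norm_num [pt_zero])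
    (by rw [pt_add]; exact nle he hf hef (by norm_num))
    (by rw [pt_add, pt_add]; exact nle he hf hef (by norm_num))
    (by rw [pt_add]; exact nle he hf hef (by norm_num))
  simp only [Q0, Q1, Q2, Q3, Q4, Q5, inner_pt he hf hef] at k
  norm_num at k
  linarith

theorem c034125 (he : ‖e‖ = 1) (hf : ‖f‖ = 1) (hef : inner ℝ e f = (0 : ℝ)) :
    RA e f 0 3 4 1 2 5 := by
  intro T h
  have k := NA_lower h
    (ea := pt e f (1 / 5) (9 / 10)) (eb := pt e f (-(3 / 10)) (-(7 / 10)))
    (em := pt e f (3 / 10) (-(7 / 10))) (ek := pt e f (-(1 / 5)) (7 / 10))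
    (ec := pt e f (-(1 / 2)) (-(1 / 10))) (ed := pt e f (1 / 2) (-(1 / 10)))
    (nle he hf hef (by norm_num)) (nle he hf hef (by norm_num)) (nle he hf hef (by norm_num))
    (nle he hf hef (by norm_num)) (nle he hf hef (by norm_num)) (nle he hf hef (by norm_num))
    (by rw [pt_add, pt_add, pt_add, pt_add, pt_add]; norm_num [pt_zero])
    (by rw [pt_add]; exact nle he hf hef (by norm_num))
    (by rw [pt_add, pt_add]; exact nle he hf hef (by norm_num))
    (by rw [pt_add]; exact nle he hf hef (by norm_num))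
  simp only [Q0, Q1, Q2, Q3, Q4, Q5, inner_pt he hf hef] at k
  norm_num at k
  linarith

theorem c031245 (he : ‖e‖ = 1) (hf : ‖f‖ = 1) (hef : inner ℝ e f = (0 : ℝ)) :
    RA e f 0 3 1 2 4 5 := by
  intro T h
  have k := NA_lower h
    (ea := pt e f (3 / 10) (4 / 5)) (eb := pt e f (-(1 / 5)) (-(9 / 10)))
    (em := pt e f (-(1 / 10)) (9 / 10)) (ek := pt e f (-(1 / 2)) (-(2 / 5)))
    (ec := pt e f 0 (-(9 / 10))) (ed := pt e f (1 / 2) (1 / 2))
    (nle he hf hef (by norm_num)) (nle he hf hef (by norm_num)) (nle he hf hef (by norm_num))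
    (nle he hf hef (by norm_num)) (nle he hf hef (by norm_num)) (nle he hf hef (by norm_num))
    (by rw [pt_add, pt_add, pt_add, pt_add, pt_add]; norm_num [pt_zero])
    (by rw [pt_add]; exact nle he hf hef (by norm_num))
    (by rw [pt_add, pt_add]; exact nle he hf hef (by norm_num))
    (by rw [pt_add]; exact nle he hf hef (by norm_num))
  simp only [Q0, Q1, Q2, Q3, Q4, Q5, inner_pt he hf hef] at k
  norm_num at k
  linarith

theorem c032145 (he : ‖e‖ = 1) (hf : ‖f‖ = 1) (hef : inner ℝ e f = (0 : ℝ)) :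
    RA e f 0 3 2 1 4 5 := by
  intro T h
  have k := NA_lower h
    (ea := pt e f (3 / 10) (4 / 5)) (eb := pt e f (-(1 / 5)) (-(9 / 10)))
    (em := pt e f (-(1 / 2)) (-(3 / 10))) (ek := pt e f (-(1 / 10)) (4 / 5))
    (ec := pt e f 0 (-(9 / 10))) (ed := pt e f (1 / 2) (1 / 2))
    (nle he hf hef (by norm_num)) (nle he hf hef (by norm_num)) (nle he hf hef (by norm_num))
    (nle he hf hef (by norm_num)) (nle he hf hef (by norm_num)) (nle he hf hef (by norm_num))
    (by rw [pt_add, pt_add, pt_add, pt_add, pt_add]; norm_num [pt_zero])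
    (by rw [pt_add]; exact nle he hf hef (by norm_num))
    (by rw [pt_add, pt_add]; exact nle he hf hef (by norm_num))
    (by rw [pt_add]; exact nle he hf hef (by norm_num))
  simp only [Q0, Q1, Q2, Q3, Q4, Q5, inner_pt he hf hef] at k
  norm_num at k
  linarith

theorem c043512 (he : ‖e‖ = 1) (hf : ‖f‖ = 1) (hef : inner ℝ e f = (0 : ℝ)) :
    RA e f 0 4 3 5 1 2 := by
  intro T h
  have k := NA_lower h
    (ea := pt e f (1 / 10) (9 / 10)) (eb := pt e f (3 / 10) (-(4 / 5)))
    (em := pt e f (-(2 / 5)) (-(3 / 5))) (ek := pt e f (1 / 2) (1 / 10))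
    (ec := pt e f 0 (9 / 10)) (ed := pt e f (-(1 / 2)) (-(1 / 2)))
    (nle he hf hef (by norm_num)) (nle he hf hef (by norm_num)) (nle he hf hef (by norm_num))
    (nle he hf hef (by norm_num)) (nle he hf hef (by norm_num)) (nle he hf hef (by norm_num))
    (by rw [pt_add, pt_add, pt_add, pt_add, pt_add]; norm_num [pt_zero])
    (by rw [pt_add]; exact nle he hf hef (by norm_num))
    (by rw [pt_add, pt_add]; exact nle he hf hef (by norm_num))
    (by rw [pt_add]; exact nle he hf hef (by norm_num))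
  simp only [Q0, Q1, Q2, Q3, Q4, Q5, inner_pt he hf hef] at k
  norm_num at k
  linarith

theorem c045312 (he : ‖e‖ = 1) (hf : ‖f‖ = 1) (hef : inner ℝ e f = (0 : ℝ)) :
    RA e f 0 4 5 3 1 2 := by
  intro T h
  have k := NA_lower h
    (ea := pt e f (-(1 / 10)) (9 / 10)) (eb := pt e f (1 / 10) (-(9 / 10)))
    (em := pt e f (1 / 2) (1 / 5)) (ek := pt e f (-(1 / 5)) (-(9 / 10)))
    (ec := pt e f (1 / 5) (9 / 10)) (ed := pt e f (-(1 / 2)) (-(1 / 5)))
    (nle he hf hef (by norm_num)) (nle he hf hef (by norm_num)) (nle he hf hef (by norm_num))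
    (nle he hf hef (by norm_num)) (nle he hf hef (by norm_num)) (nle he hf hef (by norm_num))
    (by rw [pt_add, pt_add, pt_add, pt_add, pt_add]; norm_num [pt_zero])
    (by rw [pt_add]; exact nle he hf hef (by norm_num))
    (by rw [pt_add, pt_add]; exact nle he hf hef (by norm_num))
    (by rw [pt_add]; exact nle he hf hef (by norm_num))
  simp only [Q0, Q1, Q2, Q3, Q4, Q5, inner_pt he hf hef] at k
  norm_num at k
  linarith

theorem c042513 (he : ‖e‖ = 1) (hf : ‖f‖ = 1) (hef : inner ℝ e f = (0 : ℝ)) :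
    RA e f 0 4 2 5 1 3 := by
  intro T h
  have k := NA_lower h
    (ea := pt e f (1 / 5) (9 / 10)) (eb := pt e f (3 / 10) (-(7 / 10)))
    (em := pt e f (-(1 / 2)) (-(1 / 10))) (ek := pt e f (1 / 2) (-(3 / 10)))
    (ec := pt e f (-(1 / 5)) (9 / 10)) (ed := pt e f (-(3 / 10)) (-(7 / 10)))
    (nle he hf hef (by norm_num)) (nle he hf hef (by norm_num)) (nle he hf hef (by norm_num))
    (nle he hf hef (by norm_num)) (nle he hf hef (by norm_num)) (nle he hf hef (by norm_num))
    (by rw [pt_add, pt_add, pt_add, pt_add, pt_add]; norm_num [pt_zero])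
    (by rw [pt_add]; exact nle he hf hef (by norm_num))
    (by rw [pt_add, pt_add]; exact nle he hf hef (by norm_num))
    (by rw [pt_add]; exact nle he hf hef (by norm_num))
  simp only [Q0, Q1, Q2, Q3, Q4, Q5, inner_pt he hf hef] at k
  norm_num at k
  linarith

theorem c045213 (he : ‖e‖ = 1) (hf : ‖f‖ = 1) (hef : inner ℝ e f = (0 : ℝ)) :
    RA e f 0 4 5 2 1 3 := by
  intro T h
  have k := NA_lower h
    (ea := pt e f (-(1 / 10)) (9 / 10)) (eb := pt e f (1 / 10) (-(9 / 10)))
    (em := pt e f (1 / 2) 0) (ek := pt e f (-(1 / 2)) 0)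
    (ec := pt e f (1 / 10) (9 / 10)) (ed := pt e f (-(1 / 10)) (-(9 / 10)))
    (nle he hf hef (by norm_num)) (nle he hf hef (by norm_num)) (nle he hf hef (by norm_num))
    (nle he hf hef (by norm_num)) (nle he hf hef (by norm_num)) (nle he hf hef (by norm_num))
    (by rw [pt_add, pt_add, pt_add, pt_add, pt_add]; norm_num [pt_zero])
    (by rw [pt_add]; exact nle he hf hef (by norm_num))
    (by rw [pt_add, pt_add]; exact nle he hf hef (by norm_num))
    (by rw [pt_add]; exact nle he hf hef (by norm_num))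
  simp only [Q0, Q1, Q2, Q3, Q4, Q5, inner_pt he hf hef] at k
  norm_num at k
  linarith

theorem c042315 (he : ‖e‖ = 1) (hf : ‖f‖ = 1) (hef : inner ℝ e f = (0 : ℝ)) :
    RA e f 0 4 2 3 1 5 := by
  intro T h
  have k := NA_lower h
    (ea := pt e f (1 / 5) (9 / 10)) (eb := pt e f (3 / 10) (-(7 / 10)))
    (em := pt e f (-(1 / 2)) (-(3 / 10))) (ek := pt e f (-(3 / 10)) (-(7 / 10)))
    (ec := pt e f (-(1 / 5)) (9 / 10)) (ed := pt e f (1 / 2) (-(1 / 10)))
    (nle he hf hef (by norm_num)) (nle he hf hef (by norm_num)) (nle he hf hef (by norm_num))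
    (nle he hf hef (by norm_num)) (nle he hf hef (by norm_num)) (nle he hf hef (by norm_num))
    (by rw [pt_add, pt_add, pt_add, pt_add, pt_add]; norm_num [pt_zero])
    (by rw [pt_add]; exact nle he hf hef (by norm_num))
    (by rw [pt_add, pt_add]; exact nle he hf hef (by norm_num))
    (by rw [pt_add]; exact nle he hf hef (by norm_num))
  simp only [Q0, Q1, Q2, Q3, Q4, Q5, inner_pt he hf hef] at k
  norm_num at k
  linarith

theorem c043215 (he : ‖e‖ = 1) (hf : ‖f‖ = 1) (hef : inner ℝ e f = (0 : ℝ)) :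
    RA e f 0 4 3 2 1 5 := by
  intro T h
  have k := NA_lower h
    (ea := pt e f (1 / 5) (9 / 10)) (eb := pt e f (3 / 10) (-(7 / 10)))
    (em := pt e f (-(3 / 10)) (-(7 / 10))) (ek := pt e f (-(1 / 2)) (-(3 / 10)))
    (ec := pt e f (-(1 / 5)) (9 / 10)) (ed := pt e f (1 / 2) (-(1 / 10)))
    (nle he hf hef (by norm_num)) (nle he hf hef (by norm_num)) (nle he hf hef (by norm_num))
    (nle he hf hef (by norm_num)) (nle he hf hef (by norm_num)) (nle he hf hef (by norm_num))
    (by rw [pt_add, pt_add, pt_add, pt_add, pt_add]; norm_num [pt_zero])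
    (by rw [pt_add]; exact nle he hf hef (by norm_num))
    (by rw [pt_add, pt_add]; exact nle he hf hef (by norm_num))
    (by rw [pt_add]; exact nle he hf hef (by norm_num))
  simp only [Q0, Q1, Q2, Q3, Q4, Q5, inner_pt he hf hef] at k
  norm_num at k
  linarith

theorem c041523 (he : ‖e‖ = 1) (hf : ‖f‖ = 1) (hef : inner ℝ e f = (0 : ℝ)) :
    RA e f 0 4 1 5 2 3 := by
  intro T h
  have k := NA_lower h
    (ea := pt e f (1 / 10) (9 / 10)) (eb := pt e f (1 / 5) (-(9 / 10)))
    (em := pt e f (-(3 / 10)) (4 / 5)) (ek := pt e f (1 / 2) (-(2 / 5)))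
    (ec := pt e f (-(1 / 2)) (1 / 2)) (ed := pt e f 0 (-(9 / 10)))
    (nle he hf hef (by norm_num)) (nle he hf hef (by norm_num)) (nle he hf hef (by norm_num))
    (nle he hf hef (by norm_num)) (nle he hf hef (by norm_num)) (nle he hf hef (by norm_num))
    (by rw [pt_add, pt_add, pt_add, pt_add, pt_add]; norm_num [pt_zero])
    (by rw [pt_add]; exact nle he hf hef (by norm_num))
    (by rw [pt_add, pt_add]; exact nle he hf hef (by norm_num))
    (by rw [pt_add]; exact nle he hf hef (by norm_num))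
  simp only [Q0, Q1, Q2, Q3, Q4, Q5, inner_pt he hf hef] at k
  norm_num at k
  linarith

theorem c045123 (he : ‖e‖ = 1) (hf : ‖f‖ = 1) (hef : inner ℝ e f = (0 : ℝ)) :
    RA e f 0 4 5 1 2 3 := by
  intro T h
  have k := NA_lower h
    (ea := pt e f (-(1 / 10)) (9 / 10)) (eb := pt e f (1 / 10) (-(9 / 10)))
    (em := pt e f (1 / 2) (-(3 / 10))) (ek := pt e f (-(1 / 10)) (9 / 10))
    (ec := pt e f (-(1 / 2)) (3 / 10)) (ed := pt e f (1 / 10) (-(9 / 10)))
    (nle he hf hef (by norm_num)) (nle he hf hef (by norm_num)) (nle he hf hef (by norm_num))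
    (nle he hf hef (by norm_num)) (nle he hf hef (by norm_num)) (nle he hf hef (by norm_num))
    (by rw [pt_add, pt_add, pt_add, pt_add, pt_add]; norm_num [pt_zero])
    (by rw [pt_add]; exact nle he hf hef (by norm_num))
    (by rw [pt_add, pt_add]; exact nle he hf hef (by norm_num))
    (by rw [pt_add]; exact nle he hf hef (by norm_num))
  simp only [Q0, Q1, Q2, Q3, Q4, Q5, inner_pt he hf hef] at k
  norm_num at k
  linarith

theorem c041325 (he : ‖e‖ = 1) (hf : ‖f‖ = 1) (hef : inner ℝ e f = (0 : ℝ)) :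
    RA e f 0 4 1 3 2 5 := by
  intro T h
  have k := NA_lower h
    (ea := pt e f (1 / 5) (7 / 10)) (eb := pt e f (1 / 5) (-(7 / 10)))
    (em := pt e f (-(1 / 5)) (7 / 10)) (ek := pt e f (-(1 / 5)) (-(7 / 10)))
    (ec := pt e f (-(1 / 2)) 0) (ed := pt e f (1 / 2) 0)
    (nle he hf hef (by norm_num)) (nle he hf hef (by norm_num)) (nle he hf hef (by norm_num))
    (nle he hf hef (by norm_num)) (nle he hf hef (by norm_num)) (nle he hf hef (by norm_num))
    (by rw [pt_add, pt_add, pt_add, pt_add, pt_add]; norm_num [pt_zero])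
    (by rw [pt_add]; exact nle he hf hef (by norm_num))
    (by rw [pt_add, pt_add]; exact nle he hf hef (by norm_num))
    (by rw [pt_add]; exact nle he hf hef (by norm_num))
  simp only [Q0, Q1, Q2, Q3, Q4, Q5, inner_pt he hf hef] at k
  norm_num at k
  linarith

theorem c043125 (he : ‖e‖ = 1) (hf : ‖f‖ = 1) (hef : inner ℝ e f = (0 : ℝ)) :
    RA e f 0 4 3 1 2 5 := by
  intro T h
  have k := NA_lower h
    (ea := pt e f (1 / 5) (9 / 10)) (eb := pt e f (3 / 10) (-(7 / 10)))
    (em := pt e f (-(3 / 10)) (-(7 / 10))) (ek := pt e f (-(1 / 5)) (7 / 10))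
    (ec := pt e f (-(1 / 2)) (-(1 / 10))) (ed := pt e f (1 / 2) (-(1 / 10)))
    (nle he hf hef (by norm_num)) (nle he hf hef (by norm_num)) (nle he hf hef (by norm_num))
    (nle he hf hef (by norm_num)) (nle he hf hef (by norm_num)) (nle he hf hef (by norm_num))
    (by rw [pt_add, pt_add, pt_add, pt_add, pt_add]; norm_num [pt_zero])
    (by rw [pt_add]; exact nle he hf hef (by norm_num))
    (by rw [pt_add, pt_add]; exact nle he hf hef (by norm_num))
    (by rw [pt_add]; exact nle he hf hef (by norm_num))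
  simp only [Q0, Q1, Q2, Q3, Q4, Q5, inner_pt he hf hef] at k
  norm_num at k
  linarith

theorem c041235 (he : ‖e‖ = 1) (hf : ‖f‖ = 1) (hef : inner ℝ e f = (0 : ℝ)) :
    RA e f 0 4 1 2 3 5 := by
  intro T h
  have k := NA_lower h
    (ea := pt e f (1 / 5) (7 / 10)) (eb := pt e f (1 / 5) (-(7 / 10)))
    (em := pt e f (-(1 / 5)) (7 / 10)) (ek := pt e f (-(1 / 2)) 0)
    (ec := pt e f (-(1 / 5)) (-(7 / 10))) (ed := pt e f (1 / 2) 0)
    (nle he hf hef (by norm_num)) (nle he hf hef (by norm_num)) (nle he hf hef (by norm_num))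
    (nle he hf hef (by norm_num)) (nle he hf hef (by norm_num)) (nle he hf hef (by norm_num))
    (by rw [pt_add, pt_add, pt_add, pt_add, pt_add]; norm_num [pt_zero])
    (by rw [pt_add]; exact nle he hf hef (by norm_num))
    (by rw [pt_add, pt_add]; exact nle he hf hef (by norm_num))
    (by rw [pt_add]; exact nle he hf hef (by norm_num))
  simp only [Q0, Q1, Q2, Q3, Q4, Q5, inner_pt he hf hef] at k
  norm_num at k
  linarith

theorem c042135 (he : ‖e‖ = 1) (hf : ‖f‖ = 1) (hef : inner ℝ e f = (0 : ℝ)) :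
    RA e f 0 4 2 1 3 5 := by
  intro T h
  have k := NA_lower h
    (ea := pt e f (1 / 5) (9 / 10)) (eb := pt e f (3 / 10) (-(7 / 10)))
    (em := pt e f (-(1 / 2)) (-(1 / 10))) (ek := pt e f (-(1 / 5)) (7 / 10))
    (ec := pt e f (-(3 / 10)) (-(7 / 10))) (ed := pt e f (1 / 2) (-(1 / 10)))
    (nle he hf hef (by norm_num)) (nle he hf hef (by norm_num)) (nle he hf hef (by norm_num))
    (nle he hf hef (by norm_num)) (nle he hf hef (by norm_num)) (nle he hf hef (by norm_num))
    (by rw [pt_add, pt_add, pt_add, pt_add, pt_add]; norm_num [pt_zero])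
    (by rw [pt_add]; exact nle he hf hef (by norm_num))
    (by rw [pt_add, pt_add]; exact nle he hf hef (by norm_num))
    (by rw [pt_add]; exact nle he hf hef (by norm_num))
  simp only [Q0, Q1, Q2, Q3, Q4, Q5, inner_pt he hf hef] at k
  norm_num at k
  linarith

theorem c053412 (he : ‖e‖ = 1) (hf : ‖f‖ = 1) (hef : inner ℝ e f = (0 : ℝ)) :
    RA e f 0 5 3 4 1 2 := by
  intro T h
  have k := NA_lower h
    (ea := pt e f (-(1 / 10)) (9 / 10)) (eb := pt e f (1 / 2) (-(2 / 5)))
    (em := pt e f (-(2 / 5)) (-(3 / 5))) (ek := pt e f (2 / 5) (-(2 / 5)))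
    (ec := pt e f (1 / 10) (9 / 10)) (ed := pt e f (-(1 / 2)) (-(2 / 5)))
    (nle he hf hef (by norm_num)) (nle he hf hef (by norm_num)) (nle he hf hef (by norm_num))
    (nle he hf hef (by norm_num)) (nle he hf hef (by norm_num)) (nle he hf hef (by norm_num))
    (by rw [pt_add, pt_add, pt_add, pt_add, pt_add]; norm_num [pt_zero])
    (by rw [pt_add]; exact nle he hf hef (by norm_num))
    (by rw [pt_add, pt_add]; exact nle he hf hef (by norm_num))
    (by rw [pt_add]; exact nle he hf hef (by norm_num))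
  simp only [Q0, Q1, Q2, Q3, Q4, Q5, inner_pt he hf hef] at k
  norm_num at k
  linarith

theorem c054312 (he : ‖e‖ = 1) (hf : ‖f‖ = 1) (hef : inner ℝ e f = (0 : ℝ)) :
    RA e f 0 5 4 3 1 2 := by
  intro T h
  have k := NA_lower h
    (ea := pt e f (-(3 / 10)) (4 / 5)) (eb := pt e f (1 / 2) 0)
    (em := pt e f (3 / 10) (-(4 / 5))) (ek := pt e f (-(3 / 10)) (-(4 / 5)))
    (ec := pt e f (3 / 10) (4 / 5)) (ed := pt e f (-(1 / 2)) 0)
    (nle he hf hef (by norm_num)) (nle he hf hef (by norm_num)) (nle he hf hef (by norm_num))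
    (nle he hf hef (by norm_num)) (nle he hf hef (by norm_num)) (nle he hf hef (by norm_num))
    (by rw [pt_add, pt_add, pt_add, pt_add, pt_add]; norm_num [pt_zero])
    (by rw [pt_add]; exact nle he hf hef (by norm_num))
    (by rw [pt_add, pt_add]; exact nle he hf hef (by norm_num))
    (by rw [pt_add]; exact nle he hf hef (by norm_num))
  simp only [Q0, Q1, Q2, Q3, Q4, Q5, inner_pt he hf hef] at k
  norm_num at k
  linarith

theorem c052413 (he : ‖e‖ = 1) (hf : ‖f‖ = 1) (hef : inner ℝ e f = (0 : ℝ)) :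
    RA e f 0 5 2 4 1 3 := by
  intro T h
  have k := NA_lower h
    (ea := pt e f 0 (9 / 10)) (eb := pt e f (1 / 2) (-(1 / 2)))
    (em := pt e f (-(1 / 2)) 0) (ek := pt e f (2 / 5) (-(1 / 2)))
    (ec := pt e f (-(1 / 10)) (9 / 10)) (ed := pt e f (-(3 / 10)) (-(4 / 5)))
    (nle he hf hef (by norm_num)) (nle he hf hef (by norm_num)) (nle he hf hef (by norm_num))
    (nle he hf hef (by norm_num)) (nle he hf hef (by norm_num)) (nle he hf hef (by norm_num))
    (by rw [pt_add, pt_add, pt_add, pt_add, pt_add]; norm_num [pt_zero])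
    (by rw [pt_add]; exact nle he hf hef (by norm_num))
    (by rw [pt_add, pt_add]; exact nle he hf hef (by norm_num))
    (by rw [pt_add]; exact nle he hf hef (by norm_num))
  simp only [Q0, Q1, Q2, Q3, Q4, Q5, inner_pt he hf hef] at k
  norm_num at k
  linarith

theorem c054213 (he : ‖e‖ = 1) (hf : ‖f‖ = 1) (hef : inner ℝ e f = (0 : ℝ)) :
    RA e f 0 5 4 2 1 3 := by
  intro T h
  have k := NA_lower h
    (ea := pt e f (-(1 / 5)) (9 / 10)) (eb := pt e f (1 / 2) (-(1 / 5)))
    (em := pt e f (1 / 5) (-(9 / 10))) (ek := pt e f (-(1 / 2)) (1 / 5))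
    (ec := pt e f (1 / 10) (9 / 10)) (ed := pt e f (-(1 / 10)) (-(9 / 10)))
    (nle he hf hef (by norm_num)) (nle he hf hef (by norm_num)) (nle he hf hef (by norm_num))
    (nle he hf hef (by norm_num)) (nle he hf hef (by norm_num)) (nle he hf hef (by norm_num))
    (by rw [pt_add, pt_add, pt_add, pt_add, pt_add]; norm_num [pt_zero])
    (by rw [pt_add]; exact nle he hf hef (by norm_num))
    (by rw [pt_add, pt_add]; exact nle he hf hef (by norm_num))
    (by rw [pt_add]; exact nle he hf hef (by norm_num))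
  simp only [Q0, Q1, Q2, Q3, Q4, Q5, inner_pt he hf hef] at k
  norm_num at k
  linarith

theorem c052314 (he : ‖e‖ = 1) (hf : ‖f‖ = 1) (hef : inner ℝ e f = (0 : ℝ)) :
    RA e f 0 5 2 3 1 4 := by
  intro T h
  have k := NA_lower h
    (ea := pt e f 0 (9 / 10)) (eb := pt e f (1 / 2) (-(1 / 2)))
    (em := pt e f (-(1 / 2)) 0) (ek := pt e f (-(3 / 10)) (-(7 / 10)))
    (ec := pt e f (-(1 / 10)) (9 / 10)) (ed := pt e f (2 / 5) (-(3 / 5)))
    (nle he hf hef (by norm_num)) (nle he hf hef (by norm_num)) (nle he hf hef (by norm_num))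
    (nle he hf hef (by norm_num)) (nle he hf hef (by norm_num)) (nle he hf hef (by norm_num))
    (by rw [pt_add, pt_add, pt_add, pt_add, pt_add]; norm_num [pt_zero])
    (by rw [pt_add]; exact nle he hf hef (by norm_num))
    (by rw [pt_add, pt_add]; exact nle he hf hef (by norm_num))
    (by rw [pt_add]; exact nle he hf hef (by norm_num))
  simp only [Q0, Q1, Q2, Q3, Q4, Q5, inner_pt he hf hef] at k
  norm_num at k
  linarith

theorem c053214 (he : ‖e‖ = 1) (hf : ‖f‖ = 1) (hef : inner ℝ e f = (0 : ℝ)) :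
    RA e f 0 5 3 2 1 4 := by
  intro T h
  have k := NA_lower h
    (ea := pt e f 0 (9 / 10)) (eb := pt e f (1 / 2) (-(1 / 2)))
    (em := pt e f (-(3 / 10)) (-(4 / 5))) (ek := pt e f (-(1 / 2)) (1 / 10))
    (ec := pt e f (-(1 / 10)) (9 / 10)) (ed := pt e f (2 / 5) (-(3 / 5)))
    (nle he hf hef (by norm_num)) (nle he hf hef (by norm_num)) (nle he hf hef (by norm_num))
    (nle he hf hef (by norm_num)) (nle he hf hef (by norm_num)) (nle he hf hef (by norm_num))
    (by rw [pt_add, pt_add, pt_add, pt_add, pt_add]; norm_num [pt_zero])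
    (by rw [pt_add]; exact nle he hf hef (by norm_num))
    (by rw [pt_add, pt_add]; exact nle he hf hef (by norm_num))
    (by rw [pt_add]; exact nle he hf hef (by norm_num))
  simp only [Q0, Q1, Q2, Q3, Q4, Q5, inner_pt he hf hef] at k
  norm_num at k
  linarith

theorem c051423 (he : ‖e‖ = 1) (hf : ‖f‖ = 1) (hef : inner ℝ e f = (0 : ℝ)) :
    RA e f 0 5 1 4 2 3 := by
  intro T h
  have k := NA_lower h
    (ea := pt e f (1 / 10) (9 / 10)) (eb := pt e f (2 / 5) (-(3 / 5)))
    (em := pt e f (-(2 / 5)) (3 / 5)) (ek := pt e f (2 / 5) (-(3 / 5)))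
    (ec := pt e f (-(2 / 5)) (3 / 5)) (ed := pt e f (-(1 / 10)) (-(9 / 10)))
    (nle he hf hef (by norm_num)) (nle he hf hef (by norm_num)) (nle he hf hef (by norm_num))
    (nle he hf hef (by norm_num)) (nle he hf hef (by norm_num)) (nle he hf hef (by norm_num))
    (by rw [pt_add, pt_add, pt_add, pt_add, pt_add]; norm_num [pt_zero])
    (by rw [pt_add]; exact nle he hf hef (by norm_num))
    (by rw [pt_add, pt_add]; exact nle he hf hef (by norm_num))
    (by rw [pt_add]; exact nle he hf hef (by norm_num))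
  simp only [Q0, Q1, Q2, Q3, Q4, Q5, inner_pt he hf hef] at k
  norm_num at k
  linarith

theorem c054123 (he : ‖e‖ = 1) (hf : ‖f‖ = 1) (hef : inner ℝ e f = (0 : ℝ)) :
    RA e f 0 5 4 1 2 3 := by
  intro T h
  have k := NA_lower h
    (ea := pt e f (-(1 / 10)) (9 / 10)) (eb := pt e f (1 / 2) (-(3 / 10)))
    (em := pt e f (1 / 10) (-(9 / 10))) (ek := pt e f (-(1 / 10)) (9 / 10))
    (ec := pt e f (-(1 / 2)) (3 / 10)) (ed := pt e f (1 / 10) (-(9 / 10)))
    (nle he hf hef (by norm_num)) (nle he hf hef (by norm_num)) (nle he hf hef (by norm_num))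
    (nle he hf hef (by norm_num)) (nle he hf hef (by norm_num)) (nle he hf hef (by norm_num))
    (by rw [pt_add, pt_add, pt_add, pt_add, pt_add]; norm_num [pt_zero])
    (by rw [pt_add]; exact nle he hf hef (by norm_num))
    (by rw [pt_add, pt_add]; exact nle he hf hef (by norm_num))
    (by rw [pt_add]; exact nle he hf hef (by norm_num))
  simp only [Q0, Q1, Q2, Q3, Q4, Q5, inner_pt he hf hef] at k
  norm_num at k
  linarith

theorem c051324 (he : ‖e‖ = 1) (hf : ‖f‖ = 1) (hef : inner ℝ e f = (0 : ℝ)) :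
    RA e f 0 5 1 3 2 4 := by
  intro T h
  have k := NA_lower h
    (ea := pt e f (1 / 5) (9 / 10)) (eb := pt e f (3 / 10) (-(7 / 10)))
    (em := pt e f (-(3 / 10)) (7 / 10)) (ek := pt e f (-(1 / 5)) (-(9 / 10)))
    (ec := pt e f (-(1 / 2)) (3 / 10)) (ed := pt e f (1 / 2) (-(3 / 10)))
    (nle he hf hef (by norm_num)) (nle he hf hef (by norm_num)) (nle he hf hef (by norm_num))
    (nle he hf hef (by norm_num)) (nle he hf hef (by norm_num)) (nle he hf hef (by norm_num))
    (by rw [pt_add, pt_add, pt_add, pt_add, pt_add]; norm_num [pt_zero])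
    (by rw [pt_add]; exact nle he hf hef (by norm_num))
    (by rw [pt_add, pt_add]; exact nle he hf hef (by norm_num))
    (by rw [pt_add]; exact nle he hf hef (by norm_num))
  simp only [Q0, Q1, Q2, Q3, Q4, Q5, inner_pt he hf hef] at k
  norm_num at k
  linarith

theorem c053124 (he : ‖e‖ = 1) (hf : ‖f‖ = 1) (hef : inner ℝ e f = (0 : ℝ)) :
    RA e f 0 5 3 1 2 4 := by
  intro T h
  have k := NA_lower h
    (ea := pt e f 0 (9 / 10)) (eb := pt e f (1 / 2) (-(1 / 2)))
    (em := pt e f (-(3 / 10)) (-(7 / 10))) (ek := pt e f (-(1 / 10)) (9 / 10))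
    (ec := pt e f (-(1 / 2)) 0) (ed := pt e f (2 / 5) (-(3 / 5)))
    (nle he hf hef (by norm_num)) (nle he hf hef (by norm_num)) (nle he hf hef (by norm_num))
    (nle he hf hef (by norm_num)) (nle he hf hef (by norm_num)) (nle he hf hef (by norm_num))
    (by rw [pt_add, pt_add, pt_add, pt_add, pt_add]; norm_num [pt_zero])
    (by rw [pt_add]; exact nle he hf hef (by norm_num))
    (by rw [pt_add, pt_add]; exact nle he hf hef (by norm_num))
    (by rw [pt_add]; exact nle he hf hef (by norm_num))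
  simp only [Q0, Q1, Q2, Q3, Q4, Q5, inner_pt he hf hef] at k
  norm_num at k
  linarith

theorem c051234 (he : ‖e‖ = 1) (hf : ‖f‖ = 1) (hef : inner ℝ e f = (0 : ℝ)) :
    RA e f 0 5 1 2 3 4 := by
  intro T h
  have k := NA_lower h
    (ea := pt e f (1 / 4) (4 / 5)) (eb := pt e f (3 / 10) (-(4 / 5)))
    (em := pt e f (-(3 / 10)) (4 / 5)) (ek := pt e f (-(11 / 20)) 0)
    (ec := pt e f (-(1 / 4)) (-(4 / 5))) (ed := pt e f (11 / 20) 0)
    (nle he hf hef (by norm_num)) (nle he hf hef (by norm_num)) (nle he hf hef (by norm_num))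
    (nle he hf hef (by norm_num)) (nle he hf hef (by norm_num)) (nle he hf hef (by norm_num))
    (by rw [pt_add, pt_add, pt_add, pt_add, pt_add]; norm_num [pt_zero])
    (by rw [pt_add]; exact nle he hf hef (by norm_num))
    (by rw [pt_add, pt_add]; exact nle he hf hef (by norm_num))
    (by rw [pt_add]; exact nle he hf hef (by norm_num))
  simp only [Q0, Q1, Q2, Q3, Q4, Q5, inner_pt he hf hef] at k
  norm_num at k
  linarith

theorem c052134 (he : ‖e‖ = 1) (hf : ‖f‖ = 1) (hef : inner ℝ e f = (0 : ℝ)) :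
    RA e f 0 5 2 1 3 4 := by
  intro T h
  have k := NA_lower h
    (ea := pt e f (1 / 10) (9 / 10)) (eb := pt e f (2 / 5) (-(3 / 5)))
    (em := pt e f (-(1 / 2)) (-(2 / 5))) (ek := pt e f (-(1 / 10)) (9 / 10))
    (ec := pt e f (-(2 / 5)) (-(2 / 5))) (ed := pt e f (1 / 2) (-(2 / 5)))
    (nle he hf hef (by norm_num)) (nle he hf hef (by norm_num)) (nle he hf hef (by norm_num))
    (nle he hf hef (by norm_num)) (nle he hf hef (by norm_num)) (nle he hf hef (by norm_num))
    (by rw [pt_add, pt_add, pt_add, pt_add, pt_add]; norm_num [pt_zero])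
    (by rw [pt_add]; exact nle he hf hef (by norm_num))
    (by rw [pt_add, pt_add]; exact nle he hf hef (by norm_num))
    (by rw [pt_add]; exact nle he hf hef (by norm_num))
  simp only [Q0, Q1, Q2, Q3, Q4, Q5, inner_pt he hf hef] at k
  norm_num at k
  linarith

end P6
end H11ST
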