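import Pool.Agent.Helper33.P5.C6a
import Pool.Agent.Helper33.P5.C6b
import Pool.Agent.Helper33.P5.C6c
import Pool.Agent.Helper33.P5.C6d
open MeasureTheory Metric Set Filter Topology
open scoped ENNReal NNReal

/-! The lower bound for the six points of `Sheet6`. -/

namespace H11ST
namespace P6
open P5

variable {d : ℕ} {e f : E d}

theorem NA.sw1 {a b m k c g : E d} {T : ℝ} (h : NA a b m k c g T) : NA b a m k c g T := by
  obtain ⟨z, w, w', z', hz⟩ := h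
  exact ⟨z, w, w', z', by linarith⟩

theorem NA.sw2 {a b m k c g : E d} {T : ℝ} (h : NA a b m k c g T) : NA a b m k g c T := by
  obtain ⟨z, w, w', z', hz⟩ := h
  exact ⟨z, w, w', z', by linarith⟩

theorem NA.sw3 {a b m k c g : E d} {T : ℝ} (h : NA a b m k c g T) : NA c g k m a b T := by
  obtain ⟨z, w, w', z', hz⟩ := h
  exact ⟨z', w', w, z, by
    rw [dist_comm z' w', dist_comm w' w, dist_comm w z]; linarith⟩

theorem NB.sw1 {a b c m g k : E d} {T : ℝ} (h : NB a b c m g k T) : NB b a c m g k T := by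
  obtain ⟨w, z, z', z'', hz⟩ := h
  exact ⟨w, z, z', z'', by linarith⟩

theorem NB.sw2 {a b c m g k : E d} {T : ℝ} (h : NB a b c m g k T) : NB a b m c g k T := by
  obtain ⟨w, z, z', z'', hz⟩ := h
  exact ⟨w, z, z', z'', by linarith⟩

theorem NB.sw3 {a b c m g k : E d} {T : ℝ} (h : NB a b c m g k T) : NB a b c m k g T := by
  obtain ⟨w, z, z', z'', hz⟩ := h
  exact ⟨w, z, z', z'', by linarith⟩

theorem NB.p12 {a b c m g k : E d} {T : ℝ} (h : NB a b c m g k T) : NB c m a b g k T := by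
  obtain ⟨w, z, z', z'', hz⟩ := h
  exact ⟨w, z', z, z'', by linarith⟩

theorem NB.p23 {a b c m g k : E d} {T : ℝ} (h : NB a b c m g k T) : NB a b g k c m T := by
  obtain ⟨w, z, z', z'', hz⟩ := h
  exact ⟨w, z, z'', z', by linarith⟩

/-- the ninety types -/
def L90 : List (Fin 6 × Fin 6 × Fin 6 × Fin 6 × Fin 6 × Fin 6) :=
  [(0, 1, 4, 5, 2, 3), (0, 1, 5, 4, 2, 3), (0, 1, 3, 5, 2, 4), (0, 1, 5, 3, 2, 4),
    (0, 1, 3, 4, 2, 5), (0, 1, 4, 3, 2, 5), (0, 1, 2, 5, 3, 4), (0, 1, 5, 2, 3, 4),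
    (0, 1, 2, 4, 3, 5), (0, 1, 4, 2, 3, 5), (0, 1, 2, 3, 4, 5), (0, 1, 3, 2, 4, 5),
    (0, 2, 4, 5, 1, 3), (0, 2, 5, 4, 1, 3), (0, 2, 3, 5, 1, 4), (0, 2, 5, 3, 1, 4),
    (0, 2, 3, 4, 1, 5), (0, 2, 4, 3, 1, 5), (0, 2, 1, 5, 3, 4), (0, 2, 5, 1, 3, 4),
    (0, 2, 1, 4, 3, 5), (0, 2, 4, 1, 3, 5), (0, 2, 1, 3, 4, 5), (0, 2, 3, 1, 4, 5),
    (0, 3, 4, 5, 1, 2), (0, 3, 5, 4, 1, 2), (0, 3, 2, 5, 1, 4), (0, 3, 5, 2, 1, 4),
    (0, 3, 2, 4, 1, 5), (0, 3, 4, 2, 1, 5), (0, 3, 1, 5, 2, 4), (0, 3, 5, 1, 2, 4),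
    (0, 3, 1, 4, 2, 5), (0, 3, 4, 1, 2, 5), (0, 3, 1, 2, 4, 5), (0, 3, 2, 1, 4, 5),
    (0, 4, 3, 5, 1, 2), (0, 4, 5, 3, 1, 2), (0, 4, 2, 5, 1, 3), (0, 4, 5, 2, 1, 3),
    (0, 4, 2, 3, 1, 5), (0, 4, 3, 2, 1, 5), (0, 4, 1, 5, 2, 3), (0, 4, 5, 1, 2, 3),
    (0, 4, 1, 3, 2, 5), (0, 4, 3, 1, 2, 5), (0, 4, 1, 2, 3, 5), (0, 4, 2, 1, 3, 5),
    (0, 5, 3, 4, 1, 2), (0, 5, 4, 3, 1, 2), (0, 5, 2, 4, 1, 3), (0, 5, 4, 2, 1, 3),
    (0, 5, 2, 3, 1, 4), (0, 5, 3, 2, 1, 4), (0, 5, 1, 4, 2, 3), (0, 5, 4, 1, 2, 3),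
    (0, 5, 1, 3, 2, 4), (0, 5, 3, 1, 2, 4), (0, 5, 1, 2, 3, 4), (0, 5, 2, 1, 3, 4),
    (1, 2, 0, 5, 3, 4), (1, 2, 5, 0, 3, 4), (1, 2, 0, 4, 3, 5), (1, 2, 4, 0, 3, 5),
    (1, 2, 0, 3, 4, 5), (1, 2, 3, 0, 4, 5), (1, 3, 0, 5, 2, 4), (1, 3, 5, 0, 2, 4),
    (1, 3, 0, 4, 2, 5), (1, 3, 4, 0, 2, 5), (1, 3, 0, 2, 4, 5), (1, 3, 2, 0, 4, 5),
    (1, 4, 0, 5, 2, 3), (1, 4, 5, 0, 2, 3), (1, 4, 0, 3, 2, 5), (1, 4, 3, 0, 2, 5),
    (1, 4, 0, 2, 3, 5), (1, 4, 2, 0, 3, 5), (1, 5, 0, 4, 2, 3), (1, 5, 4, 0, 2, 3),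
    (1, 5, 0, 3, 2, 4), (1, 5, 3, 0, 2, 4), (1, 5, 0, 2, 3, 4), (1, 5, 2, 0, 3, 4),
    (2, 3, 0, 1, 4, 5), (2, 3, 1, 0, 4, 5), (2, 4, 0, 1, 3, 5), (2, 4, 1, 0, 3, 5),
    (2, 5, 0, 1, 3, 4), (2, 5, 1, 0, 3, 4)]

/-- the fifteen types -/
def L15 : List (Fin 6 × Fin 6 × Fin 6 × Fin 6 × Fin 6 × Fin 6) :=
  [(0, 1, 2, 3, 4, 5), (0, 1, 2, 4, 3, 5), (0, 1, 2, 5, 3, 4), (0, 2, 1, 3, 4, 5),
    (0, 2, 1, 4, 3, 5), (0, 2, 1, 5, 3, 4), (0, 3, 1, 2, 4, 5), (0, 3, 1, 4, 2, 5),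
    (0, 3, 1, 5, 2, 4), (0, 4, 1, 2, 3, 5), (0, 4, 1, 3, 2, 5), (0, 4, 1, 5, 2, 3),
    (0, 5, 1, 2, 3, 4), (0, 5, 1, 3, 2, 4), (0, 5, 1, 4, 2, 3)]

def DA (a b m k c g : Fin 6) : Prop :=
  m ≠ a ∧ m ≠ b ∧ m ≠ c ∧ m ≠ g ∧ k ≠ a ∧ k ≠ b ∧ k ≠ c ∧ k ≠ g ∧ m ≠ k

instance (a b m k c g : Fin 6) : Decidable (DA a b m k c g) := by unfold DA; infer_instance

def MA (a b m k c g : Fin 6) : Prop := (a, b, m, k, c, g) ∈ L90

instance (a b m k c g : Fin 6) : Decidable (MA a b m k c g) := by unfold MA; infer_instance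

def PA (a b c g : Fin 6) : Prop := ∀ m k : Fin 6, DA a b m k c g → MA a b m k c g

instance (a b c g : Fin 6) : Decidable (PA a b c g) := by unfold PA; infer_instance

def DB (a b c m g k : Fin 6) : Prop :=
  g < k ∧ c < g ∧ g ≠ b ∧ g ≠ m ∧ k ≠ b ∧ k ≠ m

instance (a b c m g k : Fin 6) : Decidable (DB a b c m g k) := by unfold DB; infer_instance

def MB (a b c m g k : Fin 6) : Prop := (a, b, c, m, g, k) ∈ L15

instance (a b c m g k : Fin 6) : Decidable (MB a b c m g k) := by unfold MB; infer_instance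

def PB (a b c m : Fin 6) : Prop := ∀ g k : Fin 6, DB a b c m g k → MB a b c m g k

instance (a b c m : Fin 6) : Decidable (PB a b c m) := by unfold PB; infer_instance

theorem mem_L90' : ∀ a b c g : Fin 6, (a < b ∧ c < g ∧ a < c ∧ b ≠ c ∧ b ≠ g) → PA a b c g := by
  decide +kernel

theorem mem_L15' : ∀ a b c g : Fin 6, (a < b ∧ c < g ∧ a < c ∧ b ≠ c ∧ b ≠ g) → PB a b c g := by
  decide +kernel

theorem mem_L90 {a b : Fin 6} (h1 : a < b) {c g : Fin 6} (h2 : c < g) (h3 : a < c) (h4 : b ≠ c)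
    (h5 : b ≠ g) {m k : Fin 6} (g1 : m ≠ a) (g2 : m ≠ b) (g3 : m ≠ c) (g4 : m ≠ g) (g5 : k ≠ a)
    (g6 : k ≠ b) (g7 : k ≠ c) (g8 : k ≠ g) (g9 : m ≠ k) : (a, b, m, k, c, g) ∈ L90 :=
  mem_L90' a b c g ⟨h1, h2, h3, h4, h5⟩ m k ⟨g1, g2, g3, g4, g5, g6, g7, g8, g9⟩

theorem mem_L15 {a b : Fin 6} (h1 : a < b) {c m : Fin 6} (h2 : c < m) (h3 : a < c) (h4 : b ≠ c)
    (h5 : b ≠ m) {g k : Fin 6} (g1 : g < k) (g2 : c < g) (g3 : g ≠ b) (g4 : g ≠ m) (g5 : k ≠ b)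
    (g6 : k ≠ m) : (a, b, c, m, g, k) ∈ L15 :=
  mem_L15' a b c m ⟨h1, h2, h3, h4, h5⟩ g k ⟨g1, g2, g3, g4, g5, g6⟩

theorem baseA (he : ‖e‖ = 1) (hf : ‖f‖ = 1) (hef : inner ℝ e f = (0 : ℝ)) :
    ∀ q ∈ L90, RA e f q.1 q.2.1 q.2.2.1 q.2.2.2.1 q.2.2.2.2.1 q.2.2.2.2.2 := by
  unfold L90
  refine List.forall_mem_cons.2 ⟨c014523 he hf hef, ?_⟩
  refine List.forall_mem_cons.2 ⟨c015423 he hf hef, ?_⟩
  refine List.forall_mem_cons.2 ⟨c013524 he hf hef, ?_⟩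
  refine List.forall_mem_cons.2 ⟨c015324 he hf hef, ?_⟩
  refine List.forall_mem_cons.2 ⟨c013425 he hf hef, ?_⟩
  refine List.forall_mem_cons.2 ⟨c014325 he hf hef, ?_⟩
  refine List.forall_mem_cons.2 ⟨c012534 he hf hef, ?_⟩
  refine List.forall_mem_cons.2 ⟨c015234 he hf hef, ?_⟩
  refine List.forall_mem_cons.2 ⟨c012435 he hf hef, ?_⟩
  refine List.forall_mem_cons.2 ⟨c014235 he hf hef, ?_⟩
  refine List.forall_mem_cons.2 ⟨c012345 he hf hef, ?_⟩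
  refine List.forall_mem_cons.2 ⟨c013245 he hf hef, ?_⟩
  refine List.forall_mem_cons.2 ⟨c024513 he hf hef, ?_⟩
  refine List.forall_mem_cons.2 ⟨c025413 he hf hef, ?_⟩
  refine List.forall_mem_cons.2 ⟨c023514 he hf hef, ?_⟩
  refine List.forall_mem_cons.2 ⟨c025314 he hf hef, ?_⟩
  refine List.forall_mem_cons.2 ⟨c023415 he hf hef, ?_⟩
  refine List.forall_mem_cons.2 ⟨c024315 he hf hef, ?_⟩
  refine List.forall_mem_cons.2 ⟨c021534 he hf hef, ?_⟩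
  refine List.forall_mem_cons.2 ⟨c025134 he hf hef, ?_⟩
  refine List.forall_mem_cons.2 ⟨c021435 he hf hef, ?_⟩
  refine List.forall_mem_cons.2 ⟨c024135 he hf hef, ?_⟩
  refine List.forall_mem_cons.2 ⟨c021345 he hf hef, ?_⟩
  refine List.forall_mem_cons.2 ⟨c023145 he hf hef, ?_⟩
  refine List.forall_mem_cons.2 ⟨c034512 he hf hef, ?_⟩
  refine List.forall_mem_cons.2 ⟨c035412 he hf hef, ?_⟩
  refine List.forall_mem_cons.2 ⟨c032514 he hf hef, ?_⟩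
  refine List.forall_mem_cons.2 ⟨c035214 he hf hef, ?_⟩
  refine List.forall_mem_cons.2 ⟨c032415 he hf hef, ?_⟩
  refine List.forall_mem_cons.2 ⟨c034215 he hf hef, ?_⟩
  refine List.forall_mem_cons.2 ⟨c031524 he hf hef, ?_⟩
  refine List.forall_mem_cons.2 ⟨c035124 he hf hef, ?_⟩
  refine List.forall_mem_cons.2 ⟨c031425 he hf hef, ?_⟩
  refine List.forall_mem_cons.2 ⟨c034125 he hf hef, ?_⟩
  refine List.forall_mem_cons.2 ⟨c031245 he hf hef, ?_⟩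
  refine List.forall_mem_cons.2 ⟨c032145 he hf hef, ?_⟩
  refine List.forall_mem_cons.2 ⟨c043512 he hf hef, ?_⟩
  refine List.forall_mem_cons.2 ⟨c045312 he hf hef, ?_⟩
  refine List.forall_mem_cons.2 ⟨c042513 he hf hef, ?_⟩
  refine List.forall_mem_cons.2 ⟨c045213 he hf hef, ?_⟩
  refine List.forall_mem_cons.2 ⟨c042315 he hf hef, ?_⟩
  refine List.forall_mem_cons.2 ⟨c043215 he hf hef, ?_⟩
  refine List.forall_mem_cons.2 ⟨c041523 he hf hef, ?_⟩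
  refine List.forall_mem_cons.2 ⟨c045123 he hf hef, ?_⟩
  refine List.forall_mem_cons.2 ⟨c041325 he hf hef, ?_⟩
  refine List.forall_mem_cons.2 ⟨c043125 he hf hef, ?_⟩
  refine List.forall_mem_cons.2 ⟨c041235 he hf hef, ?_⟩
  refine List.forall_mem_cons.2 ⟨c042135 he hf hef, ?_⟩
  refine List.forall_mem_cons.2 ⟨c053412 he hf hef, ?_⟩
  refine List.forall_mem_cons.2 ⟨c054312 he hf hef, ?_⟩
  refine List.forall_mem_cons.2 ⟨c052413 he hf hef, ?_⟩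
  refine List.forall_mem_cons.2 ⟨c054213 he hf hef, ?_⟩
  refine List.forall_mem_cons.2 ⟨c052314 he hf hef, ?_⟩
  refine List.forall_mem_cons.2 ⟨c053214 he hf hef, ?_⟩
  refine List.forall_mem_cons.2 ⟨c051423 he hf hef, ?_⟩
  refine List.forall_mem_cons.2 ⟨c054123 he hf hef, ?_⟩
  refine List.forall_mem_cons.2 ⟨c051324 he hf hef, ?_⟩
  refine List.forall_mem_cons.2 ⟨c053124 he hf hef, ?_⟩
  refine List.forall_mem_cons.2 ⟨c051234 he hf hef, ?_⟩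
  refine List.forall_mem_cons.2 ⟨c052134 he hf hef, ?_⟩
  refine List.forall_mem_cons.2 ⟨c120534 he hf hef, ?_⟩
  refine List.forall_mem_cons.2 ⟨c125034 he hf hef, ?_⟩
  refine List.forall_mem_cons.2 ⟨c120435 he hf hef, ?_⟩
  refine List.forall_mem_cons.2 ⟨c124035 he hf hef, ?_⟩
  refine List.forall_mem_cons.2 ⟨c120345 he hf hef, ?_⟩
  refine List.forall_mem_cons.2 ⟨c123045 he hf hef, ?_⟩
  refine List.forall_mem_cons.2 ⟨c130524 he hf hef, ?_⟩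
  refine List.forall_mem_cons.2 ⟨c135024 he hf hef, ?_⟩
  refine List.forall_mem_cons.2 ⟨c130425 he hf hef, ?_⟩
  refine List.forall_mem_cons.2 ⟨c134025 he hf hef, ?_⟩
  refine List.forall_mem_cons.2 ⟨c130245 he hf hef, ?_⟩
  refine List.forall_mem_cons.2 ⟨c132045 he hf hef, ?_⟩
  refine List.forall_mem_cons.2 ⟨c140523 he hf hef, ?_⟩
  refine List.forall_mem_cons.2 ⟨c145023 he hf hef, ?_⟩
  refine List.forall_mem_cons.2 ⟨c140325 he hf hef, ?_⟩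
  refine List.forall_mem_cons.2 ⟨c143025 he hf hef, ?_⟩
  refine List.forall_mem_cons.2 ⟨c140235 he hf hef, ?_⟩
  refine List.forall_mem_cons.2 ⟨c142035 he hf hef, ?_⟩
  refine List.forall_mem_cons.2 ⟨c150423 he hf hef, ?_⟩
  refine List.forall_mem_cons.2 ⟨c154023 he hf hef, ?_⟩
  refine List.forall_mem_cons.2 ⟨c150324 he hf hef, ?_⟩
  refine List.forall_mem_cons.2 ⟨c153024 he hf hef, ?_⟩
  refine List.forall_mem_cons.2 ⟨c150234 he hf hef, ?_⟩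
  refine List.forall_mem_cons.2 ⟨c152034 he hf hef, ?_⟩
  refine List.forall_mem_cons.2 ⟨c230145 he hf hef, ?_⟩
  refine List.forall_mem_cons.2 ⟨c231045 he hf hef, ?_⟩
  refine List.forall_mem_cons.2 ⟨c240135 he hf hef, ?_⟩
  refine List.forall_mem_cons.2 ⟨c241035 he hf hef, ?_⟩
  refine List.forall_mem_cons.2 ⟨c250134 he hf hef, ?_⟩
  refine List.forall_mem_cons.2 ⟨c251034 he hf hef, ?_⟩
  exact List.forall_mem_nil _

theorem baseB (he : ‖e‖ = 1) (hf : ‖f‖ = 1) (hef : inner ℝ e f = (0 : ℝ)) :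
    ∀ q ∈ L15, RB e f q.1 q.2.1 q.2.2.1 q.2.2.2.1 q.2.2.2.2.1 q.2.2.2.2.2 := by
  unfold L15
  refine List.forall_mem_cons.2 ⟨b012345 he hf hef, ?_⟩
  refine List.forall_mem_cons.2 ⟨b012435 he hf hef, ?_⟩
  refine List.forall_mem_cons.2 ⟨b012534 he hf hef, ?_⟩
  refine List.forall_mem_cons.2 ⟨b021345 he hf hef, ?_⟩
  refine List.forall_mem_cons.2 ⟨b021435 he hf hef, ?_⟩
  refine List.forall_mem_cons.2 ⟨b021534 he hf hef, ?_⟩
  refine List.forall_mem_cons.2 ⟨b031245 he hf hef, ?_⟩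
  refine List.forall_mem_cons.2 ⟨b031425 he hf hef, ?_⟩
  refine List.forall_mem_cons.2 ⟨b031524 he hf hef, ?_⟩
  refine List.forall_mem_cons.2 ⟨b041235 he hf hef, ?_⟩
  refine List.forall_mem_cons.2 ⟨b041325 he hf hef, ?_⟩
  refine List.forall_mem_cons.2 ⟨b041523 he hf hef, ?_⟩
  refine List.forall_mem_cons.2 ⟨b051234 he hf hef, ?_⟩
  refine List.forall_mem_cons.2 ⟨b051324 he hf hef, ?_⟩
  refine List.forall_mem_cons.2 ⟨b051423 he hf hef, ?_⟩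
  exact List.forall_mem_nil _

theorem RA0 (he : ‖e‖ = 1) (hf : ‖f‖ = 1) (hef : inner ℝ e f = (0 : ℝ)) {a b m k c g : Fin 6}
    (h : (a, b, m, k, c, g) ∈ L90) : RA e f a b m k c g :=
  baseA he hf hef (a, b, m, k, c, g) h

theorem RB0 (he : ‖e‖ = 1) (hf : ‖f‖ = 1) (hef : inner ℝ e f = (0 : ℝ)) {a b m k c g : Fin 6}
    (h : (a, b, m, k, c, g) ∈ L15) : RB e f a b m k c g :=
  baseB he hf hef (a, b, m, k, c, g) h

theorem RA1 (he : ‖e‖ = 1) (hf : ‖f‖ = 1) (hef : inner ℝ e f = (0 : ℝ)) {a b m k c g : Fin 6}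
    (h1 : a < b) (h2 : c < g) (h3 : a ≠ c) (h4 : a ≠ g) (h5 : b ≠ c) (h6 : b ≠ g)
    (h7 : m ≠ a) (h8 : m ≠ b) (h9 : m ≠ c) (h10 : m ≠ g) (h11 : k ≠ a) (h12 : k ≠ b)
    (h13 : k ≠ c) (h14 : k ≠ g) (h15 : m ≠ k) : RA e f a b m k c g := by
  rcases lt_or_gt_of_ne h3 with h | h
  · exact RA0 he hf hef (mem_L90 h1 h2 h h5 h6 h7 h8 h9 h10 h11 h12 h13 h14 h15)
  · intro T hT
    exact RA0 he hf hef (mem_L90 h2 h1 h h4.symm h6.symm h13 h14 h11 h12 h9 h10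
      h7 h8 h15.symm) T hT.sw3

theorem RA_all (he : ‖e‖ = 1) (hf : ‖f‖ = 1) (hef : inner ℝ e f = (0 : ℝ)) {a b m k c g : Fin 6}
    (h1 : a ≠ b) (h2 : c ≠ g) (h3 : a ≠ c) (h4 : a ≠ g) (h5 : b ≠ c) (h6 : b ≠ g)
    (h7 : m ≠ a) (h8 : m ≠ b) (h9 : m ≠ c) (h10 : m ≠ g) (h11 : k ≠ a) (h12 : k ≠ b)
    (h13 : k ≠ c) (h14 : k ≠ g) (h15 : m ≠ k) : RA e f a b m k c g := by
  intro T hT
  rcases lt_or_gt_of_ne h1 with h | h <;> rcases lt_or_gt_of_ne h2 with h' | h'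
  · exact RA1 he hf hef h h' h3 h4 h5 h6 h7 h8 h9 h10 h11 h12 h13 h14 h15 T hT
  · exact RA1 he hf hef h h' h4 h3 h6 h5 h7 h8 h10 h9 h11 h12 h14 h13 h15 T hT.sw2
  · exact RA1 he hf hef h h' h5 h6 h3 h4 h8 h7 h9 h10 h12 h11 h13 h14 h15 T hT.sw1
  · exact RA1 he hf hef h h' h6 h5 h4 h3 h8 h7 h10 h9 h12 h11 h14 h13 h15 T hT.sw1.sw2

theorem RB1 (he : ‖e‖ = 1) (hf : ‖f‖ = 1) (hef : inner ℝ e f = (0 : ℝ)) {a b c m g k : Fin 6}
    (h1 : a < b) (h2 : c < m) (h3 : g < k) (ac : a ≠ c) (am : a ≠ m) (ag : a ≠ g) (ak : a ≠ k)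
    (bc : b ≠ c) (bm : b ≠ m) (bg : b ≠ g) (bk : b ≠ k) (cg : c ≠ g) (ck : c ≠ k) (mg : m ≠ g)
    (mk : m ≠ k) : RB e f a b c m g k := by
  intro T hT
  rcases lt_or_gt_of_ne ac with h | h <;> rcases lt_or_gt_of_ne cg with h' | h' <;>
    rcases lt_or_gt_of_ne ag with h'' | h''
  · exact RB0 he hf hef (mem_L15 h1 h2 h bc bm h3 h' bg.symm mg.symm bk.symm
      mk.symm) T hT
  · exact absurd (h.trans h') (not_lt_of_gt h'')
  · exact RB0 he hf hef (mem_L15 h1 h3 h'' bg bk h2 h' bc.symm ck bm.symm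
      mk) T hT.p23
  · exact RB0 he hf hef (mem_L15 h3 h1 h'' ak.symm bk.symm h2 h ck bc.symm mk
      bm.symm) T hT.p23.p12
  · exact RB0 he hf hef (mem_L15 h2 h1 h am.symm bm.symm h3 h'' mg.symm
      bg.symm mk.symm bk.symm) T hT.p12
  · exact RB0 he hf hef (mem_L15 h2 h3 h' mg mk h1 h'' am ak bm bk)
      T hT.p12.p23
  · exact absurd (h'.trans h) (not_lt_of_gt h'')
  · exact RB0 he hf hef (mem_L15 h3 h2 h' ck.symm mk.symm h1 h ak am bk bm)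
      T hT.p23.p12.p23

theorem RB_all (he : ‖e‖ = 1) (hf : ‖f‖ = 1) (hef : inner ℝ e f = (0 : ℝ)) {a b c m g k : Fin 6}
    (h1 : a ≠ b) (h2 : c ≠ m) (h3 : g ≠ k) (ac : a ≠ c) (am : a ≠ m) (ag : a ≠ g) (ak : a ≠ k)
    (bc : b ≠ c) (bm : b ≠ m) (bg : b ≠ g) (bk : b ≠ k) (cg : c ≠ g) (ck : c ≠ k) (mg : m ≠ g)
    (mk : m ≠ k) : RB e f a b c m g k := by
  intro T hT
  rcases lt_or_gt_of_ne h1 with h | h <;> rcases lt_or_gt_of_ne h2 with h' | h' <;>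
    rcases lt_or_gt_of_ne h3 with h'' | h''
  · exact RB1 he hf hef h h' h'' ac am ag ak bc bm bg bk cg ck mg mk T hT
  · exact RB1 he hf hef h h' h'' ac am ak ag bc bm bk bg ck cg mk mg T hT.sw3
  · exact RB1 he hf hef h h' h'' am ac ag ak bm bc bg bk mg mk cg ck T hT.sw2
  · exact RB1 he hf hef h h' h'' am ac ak ag bm bc bk bg mk mg ck cg T hT.sw2.sw3
  · exact RB1 he hf hef h h' h'' bc bm bg bk ac am ag ak cg ck mg mk T hT.sw1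
  · exact RB1 he hf hef h h' h'' bc bm bk bg ac am ak ag ck cg mk mg T hT.sw1.sw3
  · exact RB1 he hf hef h h' h'' bm bc bg bk am ac ag ak mg mk cg ck T hT.sw1.sw2
  · exact RB1 he hf hef h h' h'' bm bc bk bg am ac ak ag mk mg ck cg T hT.sw1.sw2.sw3

theorem J6_le (he : ‖e‖ = 1) (hf : ‖f‖ = 1) (hef : inner ℝ e f = (0 : ℝ)) (T : ℝ)
    (h : J6 (Q e f) T) : 2922 / 625 ≤ T := by
  obtain ⟨σ, hσ, h⟩ := h
  have n : ∀ i j : Fin 6, i ≠ j → σ i ≠ σ j := fun i j hij => hσ.ne hij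
  rcases h with h | h
  · exact RA_all he hf hef (n 0 1 (by decide)) (n 4 5 (by decide)) (n 0 4 (by decide))
      (n 0 5 (by decide)) (n 1 4 (by decide)) (n 1 5 (by decide)) (n 2 0 (by decide))
      (n 2 1 (by decide)) (n 2 4 (by decide)) (n 2 5 (by decide)) (n 3 0 (by decide))
      (n 3 1 (by decide)) (n 3 4 (by decide)) (n 3 5 (by decide)) (n 2 3 (by decide)) T h
  · exact RB_all he hf hef (n 0 1 (by decide)) (n 2 3 (by decide)) (n 4 5 (by decide))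
      (n 0 2 (by decide)) (n 0 3 (by decide)) (n 0 4 (by decide)) (n 0 5 (by decide))
      (n 1 2 (by decide)) (n 1 3 (by decide)) (n 1 4 (by decide)) (n 1 5 (by decide))
      (n 2 4 (by decide)) (n 2 5 (by decide)) (n 3 4 (by decide)) (n 3 5 (by decide)) T h

/-- every connected set through the six points has length `≥ 2922 / 625` -/
theorem low (he : ‖e‖ = 1) (hf : ‖f‖ = 1) (hef : inner ℝ e f = (0 : ℝ)) (T : Set (E d))
    (hT : IsClosed T) (hTA : IsConnected (T ∪ range (Q e f))) :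
    ENNReal.ofReal (2922 / 625) ≤ μH[1] T := by
  by_cases hfin : μH[1] T = ∞
  · rw [hfin]; exact le_top
  have hAf : (range (Q e f)).Finite := finite_range _
  have hX : μH[1] (T ∪ range (Q e f)) ≤ μH[1] T := by
    refine (measure_union_le _ _).trans ?_
    rw [fin_measure_zero hAf, add_zero]
  have hXfin : μH[1] (T ∪ range (Q e f)) ≠ ∞ := ne_top_of_le_ne_top hfin hX
  refine le_trans ?_ hX
  rw [ENNReal.ofReal_le_iff_le_toReal hXfin]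
  exact six_lower hTA.isPreconnected (hT.union hAf.isClosed) hXfin (p := Q e f)
    (fun i => Or.inr (mem_range_self i)) (J6_le he hf hef)

end P6
end H11ST
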