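import Pool.Agent.Helper94.P5.Sheet
open MeasureTheory Metric Set Filter Topology
open scoped ENNReal NNReal

/-!
# Row P5_FIN: three branching points from P5_LOW and P5_TREE
-/

namespace H11ST
namespace P5

theorem st_FIN (hLow : P5_LOW) (hTree : P5_TREE) : P5_FIN := by
  intro d hd t ht
  obtain ⟨e, f, he, hf, hef⟩ := exists_pair hd
  obtain ⟨hcl, hcon, hsub, hlen, hP, d01, d02, d12, hy⟩ := hTree d e f he hf hef
  have hadm : Admissible (range (P e f)) (T5 e f) 0 1 :=
    { compact := (finite_range _).isCompact
      steiner := ⟨hcl, by rw [union_eq_left.2 hsub]; exact hcon, fun T hT hTA =>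
        hlen.trans (hLow d e f he hf hef T hT hTA)⟩
      tree := hcon
      rpos := one_pos
      far := by
        rw [eq_empty_iff_forall_notMem]
        rintro z ⟨⟨i, rfl⟩, hzb⟩
        rw [mem_ball, dist_zero_right] at hzb
        have := hP i
        linarith
      finite := lt_of_le_of_lt hlen ENNReal.ofReal_lt_top }
  refine le_N hadm ?_
  have hs : ({s0 e f, s1 e f, s2 e f} : Set (E d)) ⊆
      {y ∈ ball (0 : E d) (t * 1) | IsBranchingPoint (range (P e f)) (T5 e f) y} := by
    intro y hyy
    obtain ⟨h1, h2⟩ := hy y hyy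
    refine ⟨?_, h2⟩
    rw [mem_ball, dist_zero_right, mul_one]
    linarith
  have hc : ({s0 e f, s1 e f, s2 e f} : Set (E d)).encard = 3 := by
    rw [encard_insert_of_notMem, encard_pair d12]
    · rfl
    · rintro (h | h)
      · exact d01 h
      · exact d02 h
  rw [← hc]
  exact encard_le_encard hs

end P5
end H11ST
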