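import Pool.Agent.Helper94.P5.Sheet
open MeasureTheory Metric Set Filter Topology
open scoped ENNReal NNReal

/-!
# Row P5_TREE: the tree with three branching points
-/

namespace H11ST
namespace P5

variable {d : ℕ}

/-- directions at the top tripod -/
noncomputable def uA (e f : E d) : Fin 3 → E d :=
  ![vec e f 0 1, vec e f (√3 / 2) (-(1 / 2)), vec e f (-(√3 / 2)) (-(1 / 2))]

/-- directions at the lower right tripod -/
noncomputable def uB (e f : E d) : Fin 3 → E d :=
  ![vec e f (-(√3 / 2)) (1 / 2), vec e f (√3 / 2) (1 / 2), vec e f 0 (-1)]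

/-- directions at the lower left tripod -/
noncomputable def uC (e f : E d) : Fin 3 → E d :=
  ![vec e f (√3 / 2) (1 / 2), vec e f 0 (-1), vec e f (-(√3 / 2)) (1 / 2)]

theorem uA_norm {e f : E d} (he : ‖e‖ = 1) (hf : ‖f‖ = 1) (hef : inner ℝ e f = (0 : ℝ))
    (i : Fin 3) : ‖uA e f i‖ = 1 := by
  have h3 := sq3
  fin_cases i
  · exact norm_vec_one he hf hef (by norm_num)
  · exact norm_vec_one he hf hef (by nlinarith)
  · exact norm_vec_one he hf hef (by nlinarith)

theorem uB_norm {e f : E d} (he : ‖e‖ = 1) (hf : ‖f‖ = 1) (hef : inner ℝ e f = (0 : ℝ))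
    (i : Fin 3) : ‖uB e f i‖ = 1 := by
  have h3 := sq3
  fin_cases i
  · exact norm_vec_one he hf hef (by nlinarith)
  · exact norm_vec_one he hf hef (by nlinarith)
  · exact norm_vec_one he hf hef (by norm_num)

theorem uC_norm {e f : E d} (he : ‖e‖ = 1) (hf : ‖f‖ = 1) (hef : inner ℝ e f = (0 : ℝ))
    (i : Fin 3) : ‖uC e f i‖ = 1 := by
  have h3 := sq3
  fin_cases i
  · exact norm_vec_one he hf hef (by nlinarith)
  · exact norm_vec_one he hf hef (by norm_num)
  · exact norm_vec_one he hf hef (by nlinarith)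

theorem uA_ang {e f : E d} (he : ‖e‖ = 1) (hf : ‖f‖ = 1) (hef : inner ℝ e f = (0 : ℝ))
    (i j : Fin 3) (hij : i ≠ j) : inner ℝ (uA e f i) (uA e f j) = -(1 / 2 : ℝ) := by
  have h3 := sq3
  fin_cases i <;> fin_cases j <;> first
    | exact absurd rfl hij
    | (simp only [uA, Fin.zero_eta, Fin.mk_one, Fin.reduceFinMk, Matrix.cons_val_zero,
        Matrix.cons_val_one, Matrix.cons_val]
       rw [inner_vec he hf hef]; nlinarith)

theorem uB_ang {e f : E d} (he : ‖e‖ = 1) (hf : ‖f‖ = 1) (hef : inner ℝ e f = (0 : ℝ))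
    (i j : Fin 3) (hij : i ≠ j) : inner ℝ (uB e f i) (uB e f j) = -(1 / 2 : ℝ) := by
  have h3 := sq3
  fin_cases i <;> fin_cases j <;> first
    | exact absurd rfl hij
    | (simp only [uB, Fin.zero_eta, Fin.mk_one, Fin.reduceFinMk, Matrix.cons_val_zero,
        Matrix.cons_val_one, Matrix.cons_val]
       rw [inner_vec he hf hef]; nlinarith)

theorem uC_ang {e f : E d} (he : ‖e‖ = 1) (hf : ‖f‖ = 1) (hef : inner ℝ e f = (0 : ℝ))
    (i j : Fin 3) (hij : i ≠ j) : inner ℝ (uC e f i) (uC e f j) = -(1 / 2 : ℝ) := by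
  have h3 := sq3
  fin_cases i <;> fin_cases j <;> first
    | exact absurd rfl hij
    | (simp only [uC, Fin.zero_eta, Fin.mk_one, Fin.reduceFinMk, Matrix.cons_val_zero,
        Matrix.cons_val_one, Matrix.cons_val]
       rw [inner_vec he hf hef]; nlinarith)

section
variable {e f : E d}

theorem P0e : P e f 0 = pt e f 0 1 := rfl
theorem P1e : P e f 1 = pt e f (11291 / 20000) (4191 / 20000) := rfl
theorem P2e : P e f 2 = pt e f (27 / 80) (-(4057 / 5000)) := rfl
theorem P3e : P e f 3 = pt e f (-(27 / 80)) (-(4057 / 5000)) := rfl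
theorem P4e : P e f 4 = pt e f (-(11291 / 20000)) (4191 / 20000) := rfl

theorem pt_norm_sq (he : ‖e‖ = 1) (hf : ‖f‖ = 1) (hef : inner ℝ e f = (0 : ℝ)) (x y : ℝ) :
    ‖pt e f x y‖ ^ 2 = 3 * x ^ 2 + y ^ 2 := by
  rw [pt, norm_vec_sq he hf hef, mul_pow, Real.sq_sqrt (by norm_num)]

theorem pt_edist (he : ‖e‖ = 1) (hf : ‖f‖ = 1) (hef : inner ℝ e f = (0 : ℝ)) {x y x' y' l : ℝ}
    (hl : 0 ≤ l) (h : 3 * (x - x') ^ 2 + (y - y') ^ 2 = l ^ 2) :
    edist (pt e f x y) (pt e f x' y') = ENNReal.ofReal l := by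
  rw [edist_dist, pt, pt, dist_vec he hf hef hl]
  have h3 : √3 ^ 2 = 3 := Real.sq_sqrt (by norm_num)
  have e1 : (√3 * x - √3 * x') ^ 2 = √3 ^ 2 * (x - x') ^ 2 := by ring
  rw [e1, h3, h]

theorem coord (he : ‖e‖ = 1) (hf : ‖f‖ = 1) (hef : inner ℝ e f = (0 : ℝ)) (x y : ℝ) :
    inner ℝ e (pt e f x y) = √3 * x := by
  have h4 := inner_vec he hf hef 1 0 (√3 * x) y
  have h5 : vec e f 1 0 = e := by simp [vec]
  rw [h5] at h4
  rw [pt]; linarith

theorem coord_seg (p q : E d) (c : ℝ) (hp : c ≤ inner ℝ e p) (hq : c ≤ inner ℝ e q) :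
    ∀ z ∈ segment ℝ p q, c ≤ inner ℝ e z := by
  intro z hz
  rw [segment_eq_image] at hz
  obtain ⟨θ, ⟨h0, h1⟩, rfl⟩ := hz
  simp only [inner_add_right, inner_smul_right]
  nlinarith

theorem coord_seg' (p q : E d) (c : ℝ) (hp : inner ℝ e p ≤ c) (hq : inner ℝ e q ≤ c) :
    ∀ z ∈ segment ℝ p q, inner ℝ e z ≤ c := by
  intro z hz
  rw [segment_eq_image] at hz
  obtain ⟨θ, ⟨h0, h1⟩, rfl⟩ := hz
  simp only [inner_add_right, inner_smul_right]
  nlinarith

theorem ball_coord (he : ‖e‖ = 1) (p z : E d) (ε : ℝ) (hz : z ∈ ball p ε) :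
    |inner ℝ e z - inner ℝ e p| < ε := by
  rw [mem_ball, dist_eq_norm] at hz
  rw [← inner_sub_right]
  have h4 := abs_real_inner_le_norm e (z - p)
  rw [he, one_mul] at h4
  linarith

/-- arms -/
theorem arm_pt (x y l a b : ℝ) : pt e f x y + l • vec e f (√3 * a) b =
    pt e f (x + l * a) (y + l * b) := by
  rw [pt, vec_smul, vec_add, pt]
  congr 1
  ring

theorem u_half (s : ℝ) (b : ℝ) : vec e f (s * (√3 / 2)) b = vec e f (√3 * (s / 2)) b := by
  congr 1
  ring

end

theorem st_TREE : P5_TREE := by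
  intro d e f he hf hef
  have h3 := sq3
  have h3lo : (1.73 : ℝ) ≤ √3 := by
    rw [Real.le_sqrt' (by norm_num)]; norm_num
  have h3pos : 0 < √3 := by linarith
  have n0 : ‖s0 e f‖ < 585 / 1000 := by
    have h := pt_norm_sq he hf hef 0 (8 / 25)
    rw [← s0] at h
    have h' : ‖s0 e f‖ ^ 2 < (585 / 1000) ^ 2 := by rw [h]; norm_num
    exact lt_of_pow_lt_pow_left₀ 2 (by norm_num) h'
  have n1 : ‖s1 e f‖ < 585 / 1000 := by
    have h := pt_norm_sq he hf hef (27 / 80) (-(7 / 400))
    rw [← s1] at h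
    have h' : ‖s1 e f‖ ^ 2 < (585 / 1000) ^ 2 := by rw [h]; norm_num
    exact lt_of_pow_lt_pow_left₀ 2 (by norm_num) h'
  have n2 : ‖s2 e f‖ < 585 / 1000 := by
    have h := pt_norm_sq he hf hef (-(27 / 80)) (-(7 / 400))
    rw [← s2] at h
    have h' : ‖s2 e f‖ ^ 2 < (585 / 1000) ^ 2 := by rw [h]; norm_num
    exact lt_of_pow_lt_pow_left₀ 2 (by norm_num) h'
  have key : ∀ a b : ℝ, 1 ≤ 3 * a ^ 2 + b ^ 2 → 1 ≤ ‖pt e f a b‖ := by
    intro a b hab
    have h := pt_norm_sq he hf hef a b
    have h1 := norm_nonneg (pt e f a b)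
    by_contra hc
    push Not at hc
    have h2 : ‖pt e f a b‖ ^ 2 < 1 := by nlinarith
    rw [h] at h2
    linarith
  have hP : ∀ i, 1 ≤ ‖P e f i‖ := by
    intro i
    fin_cases i
    · exact key _ _ (by norm_num)
    · exact key _ _ (by norm_num)
    · exact key _ _ (by norm_num)
    · exact key _ _ (by norm_num)
    · exact key _ _ (by norm_num)
  have notA : ∀ y : E d, ‖y‖ < 585 / 1000 → y ∉ range (P e f) := by
    rintro y hy ⟨i, rfl⟩
    have := hP i
    linarith
  -- the arms
  have a00 : s0 e f + (17 / 25 : ℝ) • vec e f 0 1 = P e f 0 := by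
    have h := arm_pt (e := e) (f := f) 0 (8 / 25) (17 / 25) 0 1
    rw [mul_zero] at h
    rw [s0, P0e, h]; congr 1 <;> norm_num
  have a01 : s0 e f + (27 / 40 : ℝ) • vec e f (√3 / 2) (-(1 / 2)) = s1 e f := by
    have h := arm_pt (e := e) (f := f) 0 (8 / 25) (27 / 40) (1 / 2) (-(1 / 2))
    have e1 : √3 * (1 / 2) = √3 / 2 := by ring
    rw [e1] at h
    rw [s0, s1, h]; congr 1 <;> norm_num
  have a02 : s0 e f + (27 / 40 : ℝ) • vec e f (-(√3 / 2)) (-(1 / 2)) = s2 e f := by
    have h := arm_pt (e := e) (f := f) 0 (8 / 25) (27 / 40) (-(1 / 2)) (-(1 / 2))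
    have e1 : √3 * (-(1 / 2)) = -(√3 / 2) := by ring
    rw [e1] at h
    rw [s0, s2, h]; congr 1 <;> norm_num
  have a10 : s1 e f + (27 / 40 : ℝ) • vec e f (-(√3 / 2)) (1 / 2) = s0 e f := by
    have h := arm_pt (e := e) (f := f) (27 / 80) (-(7 / 400)) (27 / 40) (-(1 / 2)) (1 / 2)
    have e1 : √3 * (-(1 / 2)) = -(√3 / 2) := by ring
    rw [e1] at h
    rw [s0, s1, h]; congr 1 <;> norm_num
  have a11 : s1 e f + (4541 / 10000 : ℝ) • vec e f (√3 / 2) (1 / 2) = P e f 1 := by
    have h := arm_pt (e := e) (f := f) (27 / 80) (-(7 / 400)) (4541 / 10000) (1 / 2) (1 / 2)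
    have e1 : √3 * (1 / 2) = √3 / 2 := by ring
    rw [e1] at h
    rw [s1, P1e, h]; congr 1 <;> norm_num
  have a12 : s1 e f + (7939 / 10000 : ℝ) • vec e f 0 (-1) = P e f 2 := by
    have h := arm_pt (e := e) (f := f) (27 / 80) (-(7 / 400)) (7939 / 10000) 0 (-1)
    rw [mul_zero] at h
    rw [s1, P2e, h]; congr 1 <;> norm_num
  have a20 : s2 e f + (27 / 40 : ℝ) • vec e f (√3 / 2) (1 / 2) = s0 e f := by
    have h := arm_pt (e := e) (f := f) (-(27 / 80)) (-(7 / 400)) (27 / 40) (1 / 2) (1 / 2)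
    have e1 : √3 * (1 / 2) = √3 / 2 := by ring
    rw [e1] at h
    rw [s0, s2, h]; congr 1 <;> norm_num
  have a21 : s2 e f + (7939 / 10000 : ℝ) • vec e f 0 (-1) = P e f 3 := by
    have h := arm_pt (e := e) (f := f) (-(27 / 80)) (-(7 / 400)) (7939 / 10000) 0 (-1)
    rw [mul_zero] at h
    rw [s2, P3e, h]; congr 1 <;> norm_num
  have a22 : s2 e f + (4541 / 10000 : ℝ) • vec e f (-(√3 / 2)) (1 / 2) = P e f 4 := by
    have h := arm_pt (e := e) (f := f) (-(27 / 80)) (-(7 / 400)) (4541 / 10000) (-(1 / 2)) (1 / 2)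
    have e1 : √3 * (-(1 / 2)) = -(√3 / 2) := by ring
    rw [e1] at h
    rw [s2, P4e, h]; congr 1 <;> norm_num
  -- first coordinates
  have c0 : inner ℝ e (s0 e f) = (0 : ℝ) := by rw [s0, coord he hf hef, mul_zero]
  have c1 : inner ℝ e (s1 e f) = √3 * (27 / 80) := by rw [s1, coord he hf hef]
  have c2 : inner ℝ e (s2 e f) = √3 * (-(27 / 80)) := by rw [s2, coord he hf hef]
  have cP0 : inner ℝ e (P e f 0) = (0 : ℝ) := by rw [P0e, coord he hf hef, mul_zero]
  have cP1 : inner ℝ e (P e f 1) = √3 * (11291 / 20000) := by rw [P1e, coord he hf hef]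
  have cP2 : inner ℝ e (P e f 2) = √3 * (27 / 80) := by rw [P2e, coord he hf hef]
  have cP3 : inner ℝ e (P e f 3) = √3 * (-(27 / 80)) := by rw [P3e, coord he hf hef]
  have cP4 : inner ℝ e (P e f 4) = √3 * (-(11291 / 20000)) := by rw [P4e, coord he hf hef]
  have d01 : s0 e f ≠ s1 e f := by
    intro h
    rw [← h, c0] at c1
    linarith
  have d02 : s0 e f ≠ s2 e f := by
    intro h
    rw [← h, c0] at c2
    linarith
  have d12 : s1 e f ≠ s2 e f := by
    intro h
    rw [← h, c1] at c2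
    linarith
  have TA : Tri (T5 e f) (s0 e f) (uA e f) (2 / 5) := by
    refine tri_of_segments (l := ![17 / 25, 27 / 40, 27 / 40])
      (R := segment ℝ (s1 e f) (P e f 1) ∪ segment ℝ (s1 e f) (P e f 2) ∪
        segment ℝ (s2 e f) (P e f 3) ∪ segment ℝ (s2 e f) (P e f 4)) (by norm_num)
      (uA_norm he hf hef) (uA_ang he hf hef) ?_ ?_ ?_
    · intro i
      fin_cases i <;> simp <;> norm_num
    · rw [T5]
      have f0 : s0 e f + (![17 / 25, 27 / 40, 27 / 40] : Fin 3 → ℝ) 0 • uA e f 0 = P e f 0 := a00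
      have f1 : s0 e f + (![17 / 25, 27 / 40, 27 / 40] : Fin 3 → ℝ) 1 • uA e f 1 = s1 e f := a01
      have f2 : s0 e f + (![17 / 25, 27 / 40, 27 / 40] : Fin 3 → ℝ) 2 • uA e f 2 = s2 e f := a02
      ext z
      simp only [mem_union, mem_iUnion]
      constructor
      · rintro ((((((h | h) | h) | h) | h) | h) | h)
        · exact Or.inl ⟨0, by rw [f0]; exact h⟩
        · exact Or.inl ⟨1, by rw [f1]; exact h⟩
        · exact Or.inl ⟨2, by rw [f2]; exact h⟩
        · exact Or.inr (Or.inl (Or.inl (Or.inl h)))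
        · exact Or.inr (Or.inl (Or.inl (Or.inr h)))
        · exact Or.inr (Or.inl (Or.inr h))
        · exact Or.inr (Or.inr h)
      · rintro (⟨i, h⟩ | ((h | h) | h) | h)
        · match i, h with
          | 0, h => exact Or.inl (Or.inl (Or.inl (Or.inl (Or.inl (Or.inl (by rw [f0] at h; exact h))))))
          | 1, h => exact Or.inl (Or.inl (Or.inl (Or.inl (Or.inl (Or.inr (by rw [f1] at h; exact h))))))
          | 2, h => exact Or.inl (Or.inl (Or.inl (Or.inl (Or.inr (by rw [f2] at h; exact h)))))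
        · exact Or.inl (Or.inl (Or.inl (Or.inr h)))
        · exact Or.inl (Or.inl (Or.inr h))
        · exact Or.inl (Or.inr h)
        · exact Or.inr h
    · intro z hz hb
      have h4 := ball_coord he _ _ _ hb
      rw [c0, sub_zero, abs_lt] at h4
      rcases hz with ((hz | hz) | hz) | hz
      · have := coord_seg _ _ (2 / 5) (by rw [c1]; linarith) (by rw [cP1]; linarith) z hz
        linarith [h4.2]
      · have := coord_seg _ _ (2 / 5) (by rw [c1]; linarith) (by rw [cP2]; linarith) z hz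
        linarith [h4.2]
      · have := coord_seg' _ _ (-(2 / 5)) (by rw [c2]; linarith) (by rw [cP3]; linarith) z hz
        linarith [h4.1]
      · have := coord_seg' _ _ (-(2 / 5)) (by rw [c2]; linarith) (by rw [cP4]; linarith) z hz
        linarith [h4.1]
  have TB : Tri (T5 e f) (s1 e f) (uB e f) (2 / 5) := by
    refine tri_of_segments (l := ![27 / 40, 4541 / 10000, 7939 / 10000])
      (R := segment ℝ (s0 e f) (P e f 0) ∪ segment ℝ (s0 e f) (s2 e f) ∪
        segment ℝ (s2 e f) (P e f 3) ∪ segment ℝ (s2 e f) (P e f 4)) (by norm_num)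
      (uB_norm he hf hef) (uB_ang he hf hef) ?_ ?_ ?_
    · intro i
      fin_cases i <;> simp <;> norm_num
    · rw [T5]
      have f0 : s1 e f + (![27 / 40, 4541 / 10000, 7939 / 10000] : Fin 3 → ℝ) 0 • uB e f 0 =
        s0 e f := a10
      have f1 : s1 e f + (![27 / 40, 4541 / 10000, 7939 / 10000] : Fin 3 → ℝ) 1 • uB e f 1 =
        P e f 1 := a11
      have f2 : s1 e f + (![27 / 40, 4541 / 10000, 7939 / 10000] : Fin 3 → ℝ) 2 • uB e f 2 =
        P e f 2 := a12
      ext z
      simp only [mem_union, mem_iUnion]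
      constructor
      · rintro ((((((h | h) | h) | h) | h) | h) | h)
        · exact Or.inr (Or.inl (Or.inl (Or.inl h)))
        · exact Or.inl ⟨0, by rw [f0, segment_symm]; exact h⟩
        · exact Or.inr (Or.inl (Or.inl (Or.inr h)))
        · exact Or.inl ⟨1, by rw [f1]; exact h⟩
        · exact Or.inl ⟨2, by rw [f2]; exact h⟩
        · exact Or.inr (Or.inl (Or.inr h))
        · exact Or.inr (Or.inr h)
      · rintro (⟨i, h⟩ | ((h | h) | h) | h)
        · match i, h with
          | 0, h => exact Or.inl (Or.inl (Or.inl (Or.inl (Or.inl (Or.inr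
              (by rw [f0, segment_symm] at h; exact h))))))
          | 1, h => exact Or.inl (Or.inl (Or.inl (Or.inr (by rw [f1] at h; exact h))))
          | 2, h => exact Or.inl (Or.inl (Or.inr (by rw [f2] at h; exact h)))
        · exact Or.inl (Or.inl (Or.inl (Or.inl (Or.inl (Or.inl h)))))
        · exact Or.inl (Or.inl (Or.inl (Or.inl (Or.inr h))))
        · exact Or.inl (Or.inr h)
        · exact Or.inr h
    · intro z hz hb
      have h4 := ball_coord he _ _ _ hb
      rw [c1, abs_lt] at h4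
      rcases hz with ((hz | hz) | hz) | hz
      · have := coord_seg' _ _ 0 (by rw [c0]) (by rw [cP0]) z hz
        linarith [h4.1]
      · have := coord_seg' _ _ 0 (by rw [c0]) (by rw [c2]; linarith) z hz
        linarith [h4.1]
      · have := coord_seg' _ _ 0 (by rw [c2]; linarith) (by rw [cP3]; linarith) z hz
        linarith [h4.1]
      · have := coord_seg' _ _ 0 (by rw [c2]; linarith) (by rw [cP4]; linarith) z hz
        linarith [h4.1]
  have TC : Tri (T5 e f) (s2 e f) (uC e f) (2 / 5) := by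
    refine tri_of_segments (l := ![27 / 40, 7939 / 10000, 4541 / 10000])
      (R := segment ℝ (s0 e f) (P e f 0) ∪ segment ℝ (s0 e f) (s1 e f) ∪
        segment ℝ (s1 e f) (P e f 1) ∪ segment ℝ (s1 e f) (P e f 2)) (by norm_num)
      (uC_norm he hf hef) (uC_ang he hf hef) ?_ ?_ ?_
    · intro i
      fin_cases i <;> simp <;> norm_num
    · rw [T5]
      have f0 : s2 e f + (![27 / 40, 7939 / 10000, 4541 / 10000] : Fin 3 → ℝ) 0 • uC e f 0 =
        s0 e f := a20
      have f1 : s2 e f + (![27 / 40, 7939 / 10000, 4541 / 10000] : Fin 3 → ℝ) 1 • uC e f 1 =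
        P e f 3 := a21
      have f2 : s2 e f + (![27 / 40, 7939 / 10000, 4541 / 10000] : Fin 3 → ℝ) 2 • uC e f 2 =
        P e f 4 := a22
      ext z
      simp only [mem_union, mem_iUnion]
      constructor
      · rintro ((((((h | h) | h) | h) | h) | h) | h)
        · exact Or.inr (Or.inl (Or.inl (Or.inl h)))
        · exact Or.inr (Or.inl (Or.inl (Or.inr h)))
        · exact Or.inl ⟨0, by rw [f0, segment_symm]; exact h⟩
        · exact Or.inr (Or.inl (Or.inr h))
        · exact Or.inr (Or.inr h)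
        · exact Or.inl ⟨1, by rw [f1]; exact h⟩
        · exact Or.inl ⟨2, by rw [f2]; exact h⟩
      · rintro (⟨i, h⟩ | ((h | h) | h) | h)
        · match i, h with
          | 0, h => exact Or.inl (Or.inl (Or.inl (Or.inl (Or.inr
              (by rw [f0, segment_symm] at h; exact h)))))
          | 1, h => exact Or.inl (Or.inr (by rw [f1] at h; exact h))
          | 2, h => exact Or.inr (by rw [f2] at h; exact h)
        · exact Or.inl (Or.inl (Or.inl (Or.inl (Or.inl (Or.inl h)))))
        · exact Or.inl (Or.inl (Or.inl (Or.inl (Or.inl (Or.inr h)))))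
        · exact Or.inl (Or.inl (Or.inl (Or.inr h)))
        · exact Or.inl (Or.inl (Or.inr h))
    · intro z hz hb
      have h4 := ball_coord he _ _ _ hb
      rw [c2, abs_lt] at h4
      rcases hz with ((hz | hz) | hz) | hz
      · have := coord_seg _ _ 0 (by rw [c0]) (by rw [cP0]) z hz
        linarith [h4.2]
      · have := coord_seg _ _ 0 (by rw [c0]) (by rw [c1]; linarith) z hz
        linarith [h4.2]
      · have := coord_seg _ _ 0 (by rw [c1]; linarith) (by rw [cP1]; linarith) z hz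
        linarith [h4.2]
      · have := coord_seg _ _ 0 (by rw [c1]; linarith) (by rw [cP2]; linarith) z hz
        linarith [h4.2]
  have hcl : IsClosed (T5 e f) := by
    rw [T5]
    exact ((((((seg_closed _ _).union (seg_closed _ _)).union (seg_closed _ _)).union
      (seg_closed _ _)).union (seg_closed _ _)).union (seg_closed _ _)).union (seg_closed _ _)
  have pc : ∀ p q : E d, IsPreconnected (segment ℝ p q) := fun p q =>
    (convex_segment _ _).isPreconnected
  have hcon : IsConnected (T5 e f) := by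
    refine ⟨⟨s0 e f, Or.inl (Or.inl (Or.inl (Or.inl (Or.inl (Or.inl
      (left_mem_segment ℝ _ _))))))⟩, ?_⟩
    rw [T5]
    have m0 : s0 e f ∈ segment ℝ (s0 e f) (P e f 0) := left_mem_segment ℝ _ _
    have p1 := IsPreconnected.union (s0 e f) m0 (left_mem_segment ℝ (s0 e f) (s1 e f))
      (pc (s0 e f) (P e f 0)) (pc (s0 e f) (s1 e f))
    have p2 := IsPreconnected.union (s0 e f) (Or.inl m0) (left_mem_segment ℝ (s0 e f) (s2 e f))
      p1 (pc (s0 e f) (s2 e f))
    have p3 := IsPreconnected.union (s1 e f) (Or.inl (Or.inr (right_mem_segment ℝ (s0 e f) (s1 e f))))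
      (left_mem_segment ℝ (s1 e f) (P e f 1)) p2 (pc (s1 e f) (P e f 1))
    have p4 := IsPreconnected.union (s1 e f) (Or.inr (left_mem_segment ℝ (s1 e f) (P e f 1)))
      (left_mem_segment ℝ (s1 e f) (P e f 2)) p3 (pc (s1 e f) (P e f 2))
    have p5 := IsPreconnected.union (s2 e f)
      (Or.inl (Or.inl (Or.inr (right_mem_segment ℝ (s0 e f) (s2 e f)))))
      (left_mem_segment ℝ (s2 e f) (P e f 3)) p4 (pc (s2 e f) (P e f 3))
    exact IsPreconnected.union (s2 e f) (Or.inr (left_mem_segment ℝ (s2 e f) (P e f 3)))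
      (left_mem_segment ℝ (s2 e f) (P e f 4)) p5 (pc (s2 e f) (P e f 4))
  have hsub : range (P e f) ⊆ T5 e f := by
    rintro z ⟨i, rfl⟩
    fin_cases i
    · exact Or.inl (Or.inl (Or.inl (Or.inl (Or.inl (Or.inl (right_mem_segment ℝ _ _))))))
    · exact Or.inl (Or.inl (Or.inl (Or.inr (right_mem_segment ℝ _ _))))
    · exact Or.inl (Or.inl (Or.inr (right_mem_segment ℝ _ _)))
    · exact Or.inl (Or.inr (right_mem_segment ℝ _ _))
    · exact Or.inr (right_mem_segment ℝ _ _)
  have hlen : μH[1] (T5 e f) ≤ ENNReal.ofReal (2263 / 500) := by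
    have e1 : edist (s0 e f) (P e f 0) = ENNReal.ofReal (17 / 25) := by
      rw [s0, P0e]; exact pt_edist he hf hef (by norm_num) (by norm_num)
    have e2 : edist (s0 e f) (s1 e f) = ENNReal.ofReal (27 / 40) := by
      rw [s0, s1]; exact pt_edist he hf hef (by norm_num) (by norm_num)
    have e3 : edist (s0 e f) (s2 e f) = ENNReal.ofReal (27 / 40) := by
      rw [s0, s2]; exact pt_edist he hf hef (by norm_num) (by norm_num)
    have e4 : edist (s1 e f) (P e f 1) = ENNReal.ofReal (4541 / 10000) := by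
      rw [s1, P1e]; exact pt_edist he hf hef (by norm_num) (by norm_num)
    have e5 : edist (s1 e f) (P e f 2) = ENNReal.ofReal (7939 / 10000) := by
      rw [s1, P2e]; exact pt_edist he hf hef (by norm_num) (by norm_num)
    have e6 : edist (s2 e f) (P e f 3) = ENNReal.ofReal (7939 / 10000) := by
      rw [s2, P3e]; exact pt_edist he hf hef (by norm_num) (by norm_num)
    have e7 : edist (s2 e f) (P e f 4) = ENNReal.ofReal (4541 / 10000) := by
      rw [s2, P4e]; exact pt_edist he hf hef (by norm_num) (by norm_num)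
    have hsum : (2263 / 500 : ℝ) = 17 / 25 + 27 / 40 + 27 / 40 + 4541 / 10000 + 7939 / 10000 +
        7939 / 10000 + 4541 / 10000 := by norm_num
    rw [hsum, ENNReal.ofReal_add (by positivity) (by positivity),
      ENNReal.ofReal_add (by positivity) (by positivity),
      ENNReal.ofReal_add (by positivity) (by positivity),
      ENNReal.ofReal_add (by positivity) (by positivity),
      ENNReal.ofReal_add (by positivity) (by positivity),
      ENNReal.ofReal_add (by positivity) (by positivity)]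
    rw [T5]
    refine (measure_union_le _ _).trans (add_le_add ?_ ?_)
    · refine (measure_union_le _ _).trans (add_le_add ?_ ?_)
      · refine (measure_union_le _ _).trans (add_le_add ?_ ?_)
        · refine (measure_union_le _ _).trans (add_le_add ?_ ?_)
          · refine (measure_union_le _ _).trans (add_le_add ?_ ?_)
            · refine (measure_union_le _ _).trans (add_le_add ?_ ?_)
              · rw [hausdorffMeasure_segment, e1]
              · rw [hausdorffMeasure_segment, e2]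
            · rw [hausdorffMeasure_segment, e3]
          · rw [hausdorffMeasure_segment, e4]
        · rw [hausdorffMeasure_segment, e5]
      · rw [hausdorffMeasure_segment, e6]
    · rw [hausdorffMeasure_segment, e7]
  refine ⟨hcl, hcon, hsub, hlen, hP, d01, d02, d12, ?_⟩
  rintro y (rfl | rfl | rfl)
  · exact ⟨n0, notA _ n0, uA e f, 2 / 5, TA.pos, TA.norm, TA.ang, TA.eq⟩
  · exact ⟨n1, notA _ n1, uB e f, 2 / 5, TB.pos, TB.norm, TB.ang, TB.eq⟩
  · exact ⟨n2, notA _ n2, uC e f, 2 / 5, TC.pos, TC.norm, TC.ang, TC.eq⟩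

end P5
end H11ST
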