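import Pool.Agent.Helper33.P5.Sheet6
import Pool.Agent.Helper33.P5.Tree
open MeasureTheory Metric Set Filter Topology
open scoped ENNReal NNReal

/-!
The tree with four branching points.
-/

namespace H11ST
namespace P6
open P5

variable {d : ℕ}

/-- the tripod points -/
noncomputable def t0 (e f : E d) : E d := pt e f 0 0
noncomputable def t1 (e f : E d) : E d := pt e f 0 (3619 / 5000)
noncomputable def t2 (e f : E d) : E d := pt e f (-(3619 / 10000)) (-(3619 / 10000))
noncomputable def t3 (e f : E d) : E d := pt e f (3619 / 10000) (-(3619 / 10000))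

/-- the tree -/
def T6 (e f : E d) : Set (E d) :=
  segment ℝ (t0 e f) (t1 e f) ∪ segment ℝ (t0 e f) (t2 e f) ∪ segment ℝ (t0 e f) (t3 e f) ∪
    segment ℝ (t1 e f) (Q e f 0) ∪ segment ℝ (t1 e f) (Q e f 1) ∪
    segment ℝ (t2 e f) (Q e f 2) ∪ segment ℝ (t2 e f) (Q e f 3) ∪
    segment ℝ (t3 e f) (Q e f 4) ∪ segment ℝ (t3 e f) (Q e f 5)

/-- directions: down, up right, up left -/
noncomputable def uD (e f : E d) : Fin 3 → E d :=
  ![vec e f 0 (-1), vec e f (√3 / 2) (1 / 2), vec e f (-(√3 / 2)) (1 / 2)]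

theorem uD_norm {e f : E d} (he : ‖e‖ = 1) (hf : ‖f‖ = 1) (hef : inner ℝ e f = (0 : ℝ))
    (i : Fin 3) : ‖uD e f i‖ = 1 := by
  have h3 := sq3
  fin_cases i
  · exact norm_vec_one he hf hef (by norm_num)
  · exact norm_vec_one he hf hef (by nlinarith)
  · exact norm_vec_one he hf hef (by nlinarith)

theorem uD_ang {e f : E d} (he : ‖e‖ = 1) (hf : ‖f‖ = 1) (hef : inner ℝ e f = (0 : ℝ))
    (i j : Fin 3) (hij : i ≠ j) : inner ℝ (uD e f i) (uD e f j) = -(1 / 2 : ℝ) := by
  have h3 := sq3
  fin_cases i <;> fin_cases j <;> first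
    | exact absurd rfl hij
    | (simp only [uD, Fin.zero_eta, Fin.mk_one, Fin.reduceFinMk, Matrix.cons_val_zero,
        Matrix.cons_val_one, Matrix.cons_val]
       rw [inner_vec he hf hef]; nlinarith)

section
variable {e f : E d}

/-- second coordinate -/
theorem coordf (he : ‖e‖ = 1) (hf : ‖f‖ = 1) (hef : inner ℝ e f = (0 : ℝ)) (x y : ℝ) :
    inner ℝ f (pt e f x y) = y := by
  have h4 := inner_vec he hf hef 0 1 (√3 * x) y
  have h5 : vec e f 0 1 = f := by simp [vec]
  rw [h5] at h4
  rw [pt]; linarith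

theorem segf (p q : E d) (c : ℝ) (hp : c ≤ inner ℝ f p) (hq : c ≤ inner ℝ f q) :
    ∀ z ∈ segment ℝ p q, c ≤ inner ℝ f z := coord_seg (e := f) p q c hp hq

theorem segf' (p q : E d) (c : ℝ) (hp : inner ℝ f p ≤ c) (hq : inner ℝ f q ≤ c) :
    ∀ z ∈ segment ℝ p q, inner ℝ f z ≤ c := coord_seg' (e := f) p q c hp hq

/-- arms in the six directions -/
theorem armU (x y l : ℝ) : pt e f x y + l • vec e f 0 1 = pt e f x (y + l) := by
  have h := arm_pt (e := e) (f := f) x y l 0 1
  rw [mul_zero] at h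
  rw [h]; congr 1 <;> ring

theorem armN (x y l : ℝ) : pt e f x y + l • vec e f 0 (-1) = pt e f x (y - l) := by
  have h := arm_pt (e := e) (f := f) x y l 0 (-1)
  rw [mul_zero] at h
  rw [h]; congr 1 <;> ring

theorem armUR (x y l : ℝ) :
    pt e f x y + l • vec e f (√3 / 2) (1 / 2) = pt e f (x + l / 2) (y + l / 2) := by
  have h := arm_pt (e := e) (f := f) x y l (1 / 2) (1 / 2)
  have e1 : √3 * (1 / 2) = √3 / 2 := by ring
  rw [e1] at h
  rw [h]; congr 1 <;> ring

theorem armUL (x y l : ℝ) :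
    pt e f x y + l • vec e f (-(√3 / 2)) (1 / 2) = pt e f (x - l / 2) (y + l / 2) := by
  have h := arm_pt (e := e) (f := f) x y l (-(1 / 2)) (1 / 2)
  have e1 : √3 * (-(1 / 2)) = -(√3 / 2) := by ring
  rw [e1] at h
  rw [h]; congr 1 <;> ring

theorem armDR (x y l : ℝ) :
    pt e f x y + l • vec e f (√3 / 2) (-(1 / 2)) = pt e f (x + l / 2) (y - l / 2) := by
  have h := arm_pt (e := e) (f := f) x y l (1 / 2) (-(1 / 2))
  have e1 : √3 * (1 / 2) = √3 / 2 := by ring
  rw [e1] at h
  rw [h]; congr 1 <;> ring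

theorem armDL (x y l : ℝ) :
    pt e f x y + l • vec e f (-(√3 / 2)) (-(1 / 2)) = pt e f (x - l / 2) (y - l / 2) := by
  have h := arm_pt (e := e) (f := f) x y l (-(1 / 2)) (-(1 / 2))
  have e1 : √3 * (-(1 / 2)) = -(√3 / 2) := by ring
  rw [e1] at h
  rw [h]; congr 1 <;> ring

end

section
variable {e f : E d}

theorem Qnorm (he : ‖e‖ = 1) (hf : ‖f‖ = 1) (hef : inner ℝ e f = (0 : ℝ)) (i : Fin 6) :
    1 ≤ ‖Q e f i‖ := by
  have key : ∀ a b : ℝ, 1 ≤ 3 * a ^ 2 + b ^ 2 → 1 ≤ ‖pt e f a b‖ := by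
    intro a b hab
    have h := pt_norm_sq he hf hef a b
    have h1 := norm_nonneg (pt e f a b)
    by_contra hc
    push Not at hc
    have h2 : ‖pt e f a b‖ ^ 2 < 1 := by nlinarith
    rw [h] at h2
    linarith
  fin_cases i
  · exact key _ _ (by norm_num)
  · exact key _ _ (by norm_num)
  · exact key _ _ (by norm_num)
  · exact key _ _ (by norm_num)
  · exact key _ _ (by norm_num)
  · exact key _ _ (by norm_num)

theorem tnorm (he : ‖e‖ = 1) (hf : ‖f‖ = 1) (hef : inner ℝ e f = (0 : ℝ)) {x y : ℝ}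
    (h : 3 * x ^ 2 + y ^ 2 < (724 / 1000) ^ 2) : ‖pt e f x y‖ < 724 / 1000 := by
  have h1 := pt_norm_sq he hf hef x y
  have h' : ‖pt e f x y‖ ^ 2 < (724 / 1000) ^ 2 := by rw [h1]; exact h
  exact lt_of_pow_lt_pow_left₀ 2 (by norm_num) h'

/-- the centre -/
theorem TA6 (he : ‖e‖ = 1) (hf : ‖f‖ = 1) (hef : inner ℝ e f = (0 : ℝ)) :
    Tri (T6 e f) (t0 e f) (uA e f) (3 / 10) := by
  have h3lo : (1.73 : ℝ) ≤ √3 := by
    rw [Real.le_sqrt' (by norm_num)]; norm_num
  refine tri_of_segments (l := ![3619 / 5000, 3619 / 5000, 3619 / 5000])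
    (R := segment ℝ (t1 e f) (Q e f 0) ∪ segment ℝ (t1 e f) (Q e f 1) ∪
      segment ℝ (t2 e f) (Q e f 2) ∪ segment ℝ (t2 e f) (Q e f 3) ∪
      segment ℝ (t3 e f) (Q e f 4) ∪ segment ℝ (t3 e f) (Q e f 5)) (by norm_num)
    (uA_norm he hf hef) (uA_ang he hf hef) ?_ ?_ ?_
  · intro i
    fin_cases i <;> simp <;> norm_num
  · have f0 : t0 e f + (![3619 / 5000, 3619 / 5000, 3619 / 5000] : Fin 3 → ℝ) 0 • uA e f 0 =
        t1 e f := by
      change pt e f 0 0 + (3619 / 5000 : ℝ) • vec e f 0 1 = _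
      rw [armU, t1]; congr 1; norm_num
    have f1 : t0 e f + (![3619 / 5000, 3619 / 5000, 3619 / 5000] : Fin 3 → ℝ) 1 • uA e f 1 =
        t3 e f := by
      change pt e f 0 0 + (3619 / 5000 : ℝ) • vec e f (√3 / 2) (-(1 / 2)) = _
      rw [armDR, t3]; congr 1 <;> norm_num
    have f2 : t0 e f + (![3619 / 5000, 3619 / 5000, 3619 / 5000] : Fin 3 → ℝ) 2 • uA e f 2 =
        t2 e f := by
      change pt e f 0 0 + (3619 / 5000 : ℝ) • vec e f (-(√3 / 2)) (-(1 / 2)) = _
      rw [armDL, t2]; congr 1 <;> norm_num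
    rw [T6]
    ext z
    simp only [mem_union, mem_iUnion]
    constructor
    · rintro ((((((((h | h) | h) | h) | h) | h) | h) | h) | h)
      · exact Or.inl ⟨0, by rw [f0]; exact h⟩
      · exact Or.inl ⟨2, by rw [f2]; exact h⟩
      · exact Or.inl ⟨1, by rw [f1]; exact h⟩
      · exact Or.inr (Or.inl (Or.inl (Or.inl (Or.inl (Or.inl h)))))
      · exact Or.inr (Or.inl (Or.inl (Or.inl (Or.inl (Or.inr h)))))
      · exact Or.inr (Or.inl (Or.inl (Or.inl (Or.inr h))))
      · exact Or.inr (Or.inl (Or.inl (Or.inr h)))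
      · exact Or.inr (Or.inl (Or.inr h))
      · exact Or.inr (Or.inr h)
    · rintro (⟨i, h⟩ | (((((h | h) | h) | h) | h) | h))
      · match i, h with
        | 0, h => exact Or.inl (Or.inl (Or.inl (Or.inl (Or.inl (Or.inl (Or.inl (Or.inl
            (by rw [f0] at h; exact h))))))))
        | 1, h => exact Or.inl (Or.inl (Or.inl (Or.inl (Or.inl (Or.inl (Or.inr
            (by rw [f1] at h; exact h)))))))
        | 2, h => exact Or.inl (Or.inl (Or.inl (Or.inl (Or.inl (Or.inl (Or.inl (Or.inr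
            (by rw [f2] at h; exact h))))))))
      · exact Or.inl (Or.inl (Or.inl (Or.inl (Or.inl (Or.inr h)))))
      · exact Or.inl (Or.inl (Or.inl (Or.inl (Or.inr h))))
      · exact Or.inl (Or.inl (Or.inl (Or.inr h)))
      · exact Or.inl (Or.inl (Or.inr h))
      · exact Or.inl (Or.inr h)
      · exact Or.inr h
  · intro z hz hb
    have h4 := ball_coord hf _ _ _ hb
    have h5 := ball_coord he _ _ _ hb
    have c0 : inner ℝ f (t0 e f) = (0 : ℝ) := coordf he hf hef 0 0
    have c0' : inner ℝ e (t0 e f) = (0 : ℝ) := by rw [t0, coord he hf hef, mul_zero]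
    rw [c0, sub_zero, abs_lt] at h4
    rw [c0', sub_zero, abs_lt] at h5
    rcases hz with ((((hz | hz) | hz) | hz) | hz) | hz
    · have := segf _ _ (3 / 10) (by rw [t1, coordf he hf hef]; norm_num)
        (by rw [Q0, coordf he hf hef]; norm_num) z hz
      linarith [h4.2]
    · have := segf _ _ (3 / 10) (by rw [t1, coordf he hf hef]; norm_num)
        (by rw [Q1, coordf he hf hef]; norm_num) z hz
      linarith [h4.2]
    · have := coord_seg' _ _ (-(3 / 10)) (by rw [t2, coord he hf hef]; linarith)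
        (by rw [Q2, coord he hf hef]; linarith) z hz
      linarith [h5.1]
    · have := coord_seg' _ _ (-(3 / 10)) (by rw [t2, coord he hf hef]; linarith)
        (by rw [Q3, coord he hf hef]; linarith) z hz
      linarith [h5.1]
    · have := coord_seg _ _ (3 / 10) (by rw [t3, coord he hf hef]; linarith)
        (by rw [Q4, coord he hf hef]; linarith) z hz
      linarith [h5.2]
    · have := coord_seg _ _ (3 / 10) (by rw [t3, coord he hf hef]; linarith)
        (by rw [Q5, coord he hf hef]; linarith) z hz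
      linarith [h5.2]

/-- the top tripod -/
theorem TB6 (he : ‖e‖ = 1) (hf : ‖f‖ = 1) (hef : inner ℝ e f = (0 : ℝ)) :
    Tri (T6 e f) (t1 e f) (uD e f) (3 / 10) := by
  refine tri_of_segments (l := ![3619 / 5000, 4173 / 10000, 4173 / 10000])
    (R := segment ℝ (t0 e f) (t2 e f) ∪ segment ℝ (t0 e f) (t3 e f) ∪
      segment ℝ (t2 e f) (Q e f 2) ∪ segment ℝ (t2 e f) (Q e f 3) ∪
      segment ℝ (t3 e f) (Q e f 4) ∪ segment ℝ (t3 e f) (Q e f 5)) (by norm_num)
    (uD_norm he hf hef) (uD_ang he hf hef) ?_ ?_ ?_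
  · intro i
    fin_cases i <;> simp <;> norm_num
  · have f0 : t1 e f + (![3619 / 5000, 4173 / 10000, 4173 / 10000] : Fin 3 → ℝ) 0 • uD e f 0 =
        t0 e f := by
      change pt e f 0 (3619 / 5000) + (3619 / 5000 : ℝ) • vec e f 0 (-1) = _
      rw [armN, t0]; congr 1; norm_num
    have f1 : t1 e f + (![3619 / 5000, 4173 / 10000, 4173 / 10000] : Fin 3 → ℝ) 1 • uD e f 1 =
        Q e f 0 := by
      change pt e f 0 (3619 / 5000) + (4173 / 10000 : ℝ) • vec e f (√3 / 2) (1 / 2) = _
      rw [armUR, Q0]; congr 1 <;> norm_num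
    have f2 : t1 e f + (![3619 / 5000, 4173 / 10000, 4173 / 10000] : Fin 3 → ℝ) 2 • uD e f 2 =
        Q e f 1 := by
      change pt e f 0 (3619 / 5000) + (4173 / 10000 : ℝ) • vec e f (-(√3 / 2)) (1 / 2) = _
      rw [armUL, Q1]; congr 1 <;> norm_num
    rw [T6]
    ext z
    simp only [mem_union, mem_iUnion]
    constructor
    · rintro ((((((((h | h) | h) | h) | h) | h) | h) | h) | h)
      · exact Or.inl ⟨0, by rw [f0, segment_symm]; exact h⟩
      · exact Or.inr (Or.inl (Or.inl (Or.inl (Or.inl (Or.inl h)))))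
      · exact Or.inr (Or.inl (Or.inl (Or.inl (Or.inl (Or.inr h)))))
      · exact Or.inl ⟨1, by rw [f1]; exact h⟩
      · exact Or.inl ⟨2, by rw [f2]; exact h⟩
      · exact Or.inr (Or.inl (Or.inl (Or.inl (Or.inr h))))
      · exact Or.inr (Or.inl (Or.inl (Or.inr h)))
      · exact Or.inr (Or.inl (Or.inr h))
      · exact Or.inr (Or.inr h)
    · rintro (⟨i, h⟩ | (((((h | h) | h) | h) | h) | h))
      · match i, h with
        | 0, h => exact Or.inl (Or.inl (Or.inl (Or.inl (Or.inl (Or.inl (Or.inl (Or.inl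
            (by rw [f0, segment_symm] at h; exact h))))))))
        | 1, h => exact Or.inl (Or.inl (Or.inl (Or.inl (Or.inl (Or.inr
            (by rw [f1] at h; exact h))))))
        | 2, h => exact Or.inl (Or.inl (Or.inl (Or.inl (Or.inr (by rw [f2] at h; exact h)))))
      · exact Or.inl (Or.inl (Or.inl (Or.inl (Or.inl (Or.inl (Or.inl (Or.inr h)))))))
      · exact Or.inl (Or.inl (Or.inl (Or.inl (Or.inl (Or.inl (Or.inr h))))))
      · exact Or.inl (Or.inl (Or.inl (Or.inr h)))
      · exact Or.inl (Or.inl (Or.inr h))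
      · exact Or.inl (Or.inr h)
      · exact Or.inr h
  · intro z hz hb
    have h4 := ball_coord hf _ _ _ hb
    rw [t1, coordf he hf hef, abs_lt] at h4
    have h5 : inner ℝ f z ≤ 0 := by
      rcases hz with ((((hz | hz) | hz) | hz) | hz) | hz
      · exact segf' _ _ 0 (by rw [t0, coordf he hf hef]) (by rw [t2, coordf he hf hef]; norm_num)
          z hz
      · exact segf' _ _ 0 (by rw [t0, coordf he hf hef]) (by rw [t3, coordf he hf hef]; norm_num)
          z hz
      · exact segf' _ _ 0 (by rw [t2, coordf he hf hef]; norm_num)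
          (by rw [Q2, coordf he hf hef]; norm_num) z hz
      · exact segf' _ _ 0 (by rw [t2, coordf he hf hef]; norm_num)
          (by rw [Q3, coordf he hf hef]; norm_num) z hz
      · exact segf' _ _ 0 (by rw [t3, coordf he hf hef]; norm_num)
          (by rw [Q4, coordf he hf hef]; norm_num) z hz
      · exact segf' _ _ 0 (by rw [t3, coordf he hf hef]; norm_num)
          (by rw [Q5, coordf he hf hef]; norm_num) z hz
    linarith [h4.1]

/-- the lower left tripod -/
theorem TC6 (he : ‖e‖ = 1) (hf : ‖f‖ = 1) (hef : inner ℝ e f = (0 : ℝ)) :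
    Tri (T6 e f) (t2 e f) (uD e f) (3 / 10) := by
  have h3lo : (1.73 : ℝ) ≤ √3 := by
    rw [Real.le_sqrt' (by norm_num)]; norm_num
  refine tri_of_segments (l := ![4173 / 10000, 3619 / 5000, 4173 / 10000])
    (R := segment ℝ (t0 e f) (t1 e f) ∪ segment ℝ (t0 e f) (t3 e f) ∪
      segment ℝ (t1 e f) (Q e f 0) ∪ segment ℝ (t1 e f) (Q e f 1) ∪
      segment ℝ (t3 e f) (Q e f 4) ∪ segment ℝ (t3 e f) (Q e f 5)) (by norm_num)
    (uD_norm he hf hef) (uD_ang he hf hef) ?_ ?_ ?_
  · intro i
    fin_cases i <;> simp <;> norm_num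
  · have f0 : t2 e f + (![4173 / 10000, 3619 / 5000, 4173 / 10000] : Fin 3 → ℝ) 0 • uD e f 0 =
        Q e f 3 := by
      change pt e f (-(3619 / 10000)) (-(3619 / 10000)) +
        (4173 / 10000 : ℝ) • vec e f 0 (-1) = _
      rw [armN, Q3]; congr 1; norm_num
    have f1 : t2 e f + (![4173 / 10000, 3619 / 5000, 4173 / 10000] : Fin 3 → ℝ) 1 • uD e f 1 =
        t0 e f := by
      change pt e f (-(3619 / 10000)) (-(3619 / 10000)) +
        (3619 / 5000 : ℝ) • vec e f (√3 / 2) (1 / 2) = _
      rw [armUR, t0]; congr 1 <;> norm_num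
    have f2 : t2 e f + (![4173 / 10000, 3619 / 5000, 4173 / 10000] : Fin 3 → ℝ) 2 • uD e f 2 =
        Q e f 2 := by
      change pt e f (-(3619 / 10000)) (-(3619 / 10000)) +
        (4173 / 10000 : ℝ) • vec e f (-(√3 / 2)) (1 / 2) = _
      rw [armUL, Q2]; congr 1 <;> norm_num
    rw [T6]
    ext z
    simp only [mem_union, mem_iUnion]
    constructor
    · rintro ((((((((h | h) | h) | h) | h) | h) | h) | h) | h)
      · exact Or.inr (Or.inl (Or.inl (Or.inl (Or.inl (Or.inl h)))))
      · exact Or.inl ⟨1, by rw [f1, segment_symm]; exact h⟩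
      · exact Or.inr (Or.inl (Or.inl (Or.inl (Or.inl (Or.inr h)))))
      · exact Or.inr (Or.inl (Or.inl (Or.inl (Or.inr h))))
      · exact Or.inr (Or.inl (Or.inl (Or.inr h)))
      · exact Or.inl ⟨2, by rw [f2]; exact h⟩
      · exact Or.inl ⟨0, by rw [f0]; exact h⟩
      · exact Or.inr (Or.inl (Or.inr h))
      · exact Or.inr (Or.inr h)
    · rintro (⟨i, h⟩ | (((((h | h) | h) | h) | h) | h))
      · match i, h with
        | 0, h => exact Or.inl (Or.inl (Or.inr (by rw [f0] at h; exact h)))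
        | 1, h => exact Or.inl (Or.inl (Or.inl (Or.inl (Or.inl (Or.inl (Or.inl (Or.inr
            (by rw [f1, segment_symm] at h; exact h))))))))
        | 2, h => exact Or.inl (Or.inl (Or.inl (Or.inr (by rw [f2] at h; exact h))))
      · exact Or.inl (Or.inl (Or.inl (Or.inl (Or.inl (Or.inl (Or.inl (Or.inl h)))))))
      · exact Or.inl (Or.inl (Or.inl (Or.inl (Or.inl (Or.inl (Or.inr h))))))
      · exact Or.inl (Or.inl (Or.inl (Or.inl (Or.inl (Or.inr h)))))
      · exact Or.inl (Or.inl (Or.inl (Or.inl (Or.inr h))))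
      · exact Or.inl (Or.inr h)
      · exact Or.inr h
  · intro z hz hb
    have h4 := ball_coord he _ _ _ hb
    rw [t2, coord he hf hef, abs_lt] at h4
    have h5 : -(32 / 100 : ℝ) ≤ inner ℝ e z → False := fun h => by
      have : inner ℝ e z < √3 * -(3619 / 10000) + 3 / 10 := by linarith [h4.2]
      nlinarith
    rcases hz with ((((hz | hz) | hz) | hz) | hz) | hz
    · exact h5 (coord_seg _ _ _ (by rw [t0, coord he hf hef]; norm_num)
        (by rw [t1, coord he hf hef]; norm_num) z hz)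
    · exact h5 (coord_seg _ _ _ (by rw [t0, coord he hf hef]; norm_num)
        (by rw [t3, coord he hf hef]; nlinarith) z hz)
    · -- the left top arm
      have h6 := ball_coord hf _ _ _ hb
      rw [t2, coordf he hf hef, abs_lt] at h6
      have h7 := segf _ _ (1 / 2) (by rw [t1, coordf he hf hef]; norm_num)
        (by rw [Q0, coordf he hf hef]; norm_num) z hz
      linarith [h6.2]
    · have h6 := ball_coord hf _ _ _ hb
      rw [t2, coordf he hf hef, abs_lt] at h6
      have h7 := segf _ _ (1 / 2) (by rw [t1, coordf he hf hef]; norm_num)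
        (by rw [Q1, coordf he hf hef]; norm_num) z hz
      linarith [h6.2]
    · exact h5 (coord_seg _ _ _ (by rw [t3, coord he hf hef]; nlinarith)
        (by rw [Q4, coord he hf hef]; nlinarith) z hz)
    · exact h5 (coord_seg _ _ _ (by rw [t3, coord he hf hef]; nlinarith)
        (by rw [Q5, coord he hf hef]; nlinarith) z hz)

/-- the lower right tripod -/
theorem TD6 (he : ‖e‖ = 1) (hf : ‖f‖ = 1) (hef : inner ℝ e f = (0 : ℝ)) :
    Tri (T6 e f) (t3 e f) (uD e f) (3 / 10) := by
  have h3lo : (1.73 : ℝ) ≤ √3 := by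
    rw [Real.le_sqrt' (by norm_num)]; norm_num
  refine tri_of_segments (l := ![4173 / 10000, 4173 / 10000, 3619 / 5000])
    (R := segment ℝ (t0 e f) (t1 e f) ∪ segment ℝ (t0 e f) (t2 e f) ∪
      segment ℝ (t1 e f) (Q e f 0) ∪ segment ℝ (t1 e f) (Q e f 1) ∪
      segment ℝ (t2 e f) (Q e f 2) ∪ segment ℝ (t2 e f) (Q e f 3)) (by norm_num)
    (uD_norm he hf hef) (uD_ang he hf hef) ?_ ?_ ?_
  · intro i
    fin_cases i <;> simp <;> norm_num
  · have f0 : t3 e f + (![4173 / 10000, 4173 / 10000, 3619 / 5000] : Fin 3 → ℝ) 0 • uD e f 0 =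
        Q e f 4 := by
      change pt e f (3619 / 10000) (-(3619 / 10000)) +
        (4173 / 10000 : ℝ) • vec e f 0 (-1) = _
      rw [armN, Q4]; congr 1; norm_num
    have f1 : t3 e f + (![4173 / 10000, 4173 / 10000, 3619 / 5000] : Fin 3 → ℝ) 1 • uD e f 1 =
        Q e f 5 := by
      change pt e f (3619 / 10000) (-(3619 / 10000)) +
        (4173 / 10000 : ℝ) • vec e f (√3 / 2) (1 / 2) = _
      rw [armUR, Q5]; congr 1 <;> norm_num
    have f2 : t3 e f + (![4173 / 10000, 4173 / 10000, 3619 / 5000] : Fin 3 → ℝ) 2 • uD e f 2 =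
        t0 e f := by
      change pt e f (3619 / 10000) (-(3619 / 10000)) +
        (3619 / 5000 : ℝ) • vec e f (-(√3 / 2)) (1 / 2) = _
      rw [armUL, t0]; congr 1 <;> norm_num
    rw [T6]
    ext z
    simp only [mem_union, mem_iUnion]
    constructor
    · rintro ((((((((h | h) | h) | h) | h) | h) | h) | h) | h)
      · exact Or.inr (Or.inl (Or.inl (Or.inl (Or.inl (Or.inl h)))))
      · exact Or.inr (Or.inl (Or.inl (Or.inl (Or.inl (Or.inr h)))))
      · exact Or.inl ⟨2, by rw [f2, segment_symm]; exact h⟩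
      · exact Or.inr (Or.inl (Or.inl (Or.inl (Or.inr h))))
      · exact Or.inr (Or.inl (Or.inl (Or.inr h)))
      · exact Or.inr (Or.inl (Or.inr h))
      · exact Or.inr (Or.inr h)
      · exact Or.inl ⟨0, by rw [f0]; exact h⟩
      · exact Or.inl ⟨1, by rw [f1]; exact h⟩
    · rintro (⟨i, h⟩ | (((((h | h) | h) | h) | h) | h))
      · match i, h with
        | 0, h => exact Or.inl (Or.inr (by rw [f0] at h; exact h))
        | 1, h => exact Or.inr (by rw [f1] at h; exact h)
        | 2, h => exact Or.inl (Or.inl (Or.inl (Or.inl (Or.inl (Or.inl (Or.inr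
            (by rw [f2, segment_symm] at h; exact h)))))))
      · exact Or.inl (Or.inl (Or.inl (Or.inl (Or.inl (Or.inl (Or.inl (Or.inl h)))))))
      · exact Or.inl (Or.inl (Or.inl (Or.inl (Or.inl (Or.inl (Or.inl (Or.inr h)))))))
      · exact Or.inl (Or.inl (Or.inl (Or.inl (Or.inl (Or.inr h)))))
      · exact Or.inl (Or.inl (Or.inl (Or.inl (Or.inr h))))
      · exact Or.inl (Or.inl (Or.inl (Or.inr h)))
      · exact Or.inl (Or.inl (Or.inr h))
  · intro z hz hb
    have h4 := ball_coord he _ _ _ hb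
    rw [t3, coord he hf hef, abs_lt] at h4
    have h5 : inner ℝ e z ≤ 32 / 100 → False := fun h => by
      have : √3 * (3619 / 10000) - 3 / 10 < inner ℝ e z := by linarith [h4.1]
      nlinarith
    rcases hz with ((((hz | hz) | hz) | hz) | hz) | hz
    · exact h5 (coord_seg' _ _ _ (by rw [t0, coord he hf hef]; norm_num)
        (by rw [t1, coord he hf hef]; norm_num) z hz)
    · exact h5 (coord_seg' _ _ _ (by rw [t0, coord he hf hef]; norm_num)
        (by rw [t2, coord he hf hef]; nlinarith) z hz)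
    · have h6 := ball_coord hf _ _ _ hb
      rw [t3, coordf he hf hef, abs_lt] at h6
      have h7 := segf _ _ (1 / 2) (by rw [t1, coordf he hf hef]; norm_num)
        (by rw [Q0, coordf he hf hef]; norm_num) z hz
      linarith [h6.2]
    · have h6 := ball_coord hf _ _ _ hb
      rw [t3, coordf he hf hef, abs_lt] at h6
      have h7 := segf _ _ (1 / 2) (by rw [t1, coordf he hf hef]; norm_num)
        (by rw [Q1, coordf he hf hef]; norm_num) z hz
      linarith [h6.2]
    · exact h5 (coord_seg' _ _ _ (by rw [t2, coord he hf hef]; nlinarith)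
        (by rw [Q2, coord he hf hef]; nlinarith) z hz)
    · exact h5 (coord_seg' _ _ _ (by rw [t2, coord he hf hef]; nlinarith)
        (by rw [Q3, coord he hf hef]; nlinarith) z hz)

theorem T6_closed : IsClosed (T6 e f) := by
  rw [T6]
  exact ((((((((seg_closed _ _).union (seg_closed _ _)).union (seg_closed _ _)).union
    (seg_closed _ _)).union (seg_closed _ _)).union (seg_closed _ _)).union
    (seg_closed _ _)).union (seg_closed _ _)).union (seg_closed _ _)

theorem T6_sub : range (Q e f) ⊆ T6 e f := by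
  rintro z ⟨i, rfl⟩
  fin_cases i
  · exact Or.inl (Or.inl (Or.inl (Or.inl (Or.inl (Or.inr (right_mem_segment ℝ _ _))))))
  · exact Or.inl (Or.inl (Or.inl (Or.inl (Or.inr (right_mem_segment ℝ _ _)))))
  · exact Or.inl (Or.inl (Or.inl (Or.inr (right_mem_segment ℝ _ _))))
  · exact Or.inl (Or.inl (Or.inr (right_mem_segment ℝ _ _)))
  · exact Or.inl (Or.inr (right_mem_segment ℝ _ _))
  · exact Or.inr (right_mem_segment ℝ _ _)

theorem T6_conn : IsConnected (T6 e f) := by
  have pc : ∀ p q : E d, IsPreconnected (segment ℝ p q) := fun p q =>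
    (convex_segment _ _).isPreconnected
  have m0 : t0 e f ∈ segment ℝ (t0 e f) (t1 e f) := left_mem_segment ℝ _ _
  refine ⟨⟨t0 e f, Or.inl (Or.inl (Or.inl (Or.inl (Or.inl (Or.inl (Or.inl (Or.inl m0)))))))⟩, ?_⟩
  rw [T6]
  have p1 := IsPreconnected.union (t0 e f) m0 (left_mem_segment ℝ (t0 e f) (t2 e f))
    (pc (t0 e f) (t1 e f)) (pc (t0 e f) (t2 e f))
  have p2 := IsPreconnected.union (t0 e f) (Or.inl m0) (left_mem_segment ℝ (t0 e f) (t3 e f))
    p1 (pc (t0 e f) (t3 e f))
  have p3 := IsPreconnected.union (t1 e f)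
    (Or.inl (Or.inl (right_mem_segment ℝ (t0 e f) (t1 e f))))
    (left_mem_segment ℝ (t1 e f) (Q e f 0)) p2 (pc (t1 e f) (Q e f 0))
  have p4 := IsPreconnected.union (t1 e f) (Or.inr (left_mem_segment ℝ (t1 e f) (Q e f 0)))
    (left_mem_segment ℝ (t1 e f) (Q e f 1)) p3 (pc (t1 e f) (Q e f 1))
  have p5 := IsPreconnected.union (t2 e f)
    (Or.inl (Or.inl (Or.inl (Or.inr (right_mem_segment ℝ (t0 e f) (t2 e f))))))
    (left_mem_segment ℝ (t2 e f) (Q e f 2)) p4 (pc (t2 e f) (Q e f 2))
  have p6 := IsPreconnected.union (t2 e f) (Or.inr (left_mem_segment ℝ (t2 e f) (Q e f 2)))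
    (left_mem_segment ℝ (t2 e f) (Q e f 3)) p5 (pc (t2 e f) (Q e f 3))
  have p7 := IsPreconnected.union (t3 e f)
    (Or.inl (Or.inl (Or.inl (Or.inl (Or.inr (right_mem_segment ℝ (t0 e f) (t3 e f)))))))
    (left_mem_segment ℝ (t3 e f) (Q e f 4)) p6 (pc (t3 e f) (Q e f 4))
  exact IsPreconnected.union (t3 e f) (Or.inr (left_mem_segment ℝ (t3 e f) (Q e f 4)))
    (left_mem_segment ℝ (t3 e f) (Q e f 5)) p7 (pc (t3 e f) (Q e f 5))

theorem T6_len (he : ‖e‖ = 1) (hf : ‖f‖ = 1) (hef : inner ℝ e f = (0 : ℝ)) :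
    μH[1] (T6 e f) ≤ ENNReal.ofReal (2922 / 625) := by
  have e1 : edist (t0 e f) (t1 e f) = ENNReal.ofReal (3619 / 5000) := by
    rw [t0, t1]; exact pt_edist he hf hef (by norm_num) (by norm_num)
  have e2 : edist (t0 e f) (t2 e f) = ENNReal.ofReal (3619 / 5000) := by
    rw [t0, t2]; exact pt_edist he hf hef (by norm_num) (by norm_num)
  have e3 : edist (t0 e f) (t3 e f) = ENNReal.ofReal (3619 / 5000) := by
    rw [t0, t3]; exact pt_edist he hf hef (by norm_num) (by norm_num)
  have e4 : edist (t1 e f) (Q e f 0) = ENNReal.ofReal (4173 / 10000) := by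
    rw [t1, Q0]; exact pt_edist he hf hef (by norm_num) (by norm_num)
  have e5 : edist (t1 e f) (Q e f 1) = ENNReal.ofReal (4173 / 10000) := by
    rw [t1, Q1]; exact pt_edist he hf hef (by norm_num) (by norm_num)
  have e6 : edist (t2 e f) (Q e f 2) = ENNReal.ofReal (4173 / 10000) := by
    rw [t2, Q2]; exact pt_edist he hf hef (by norm_num) (by norm_num)
  have e7 : edist (t2 e f) (Q e f 3) = ENNReal.ofReal (4173 / 10000) := by
    rw [t2, Q3]; exact pt_edist he hf hef (by norm_num) (by norm_num)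
  have e8 : edist (t3 e f) (Q e f 4) = ENNReal.ofReal (4173 / 10000) := by
    rw [t3, Q4]; exact pt_edist he hf hef (by norm_num) (by norm_num)
  have e9 : edist (t3 e f) (Q e f 5) = ENNReal.ofReal (4173 / 10000) := by
    rw [t3, Q5]; exact pt_edist he hf hef (by norm_num) (by norm_num)
  have hsum : (2922 / 625 : ℝ) = 3619 / 5000 + 3619 / 5000 + 3619 / 5000 + 4173 / 10000 +
      4173 / 10000 + 4173 / 10000 + 4173 / 10000 + 4173 / 10000 + 4173 / 10000 := by norm_num
  rw [hsum, ENNReal.ofReal_add (by positivity) (by positivity),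
    ENNReal.ofReal_add (by positivity) (by positivity),
    ENNReal.ofReal_add (by positivity) (by positivity),
    ENNReal.ofReal_add (by positivity) (by positivity),
    ENNReal.ofReal_add (by positivity) (by positivity),
    ENNReal.ofReal_add (by positivity) (by positivity),
    ENNReal.ofReal_add (by positivity) (by positivity),
    ENNReal.ofReal_add (by positivity) (by positivity)]
  rw [T6]
  refine (measure_union_le _ _).trans (add_le_add ?_ ?_)
  · refine (measure_union_le _ _).trans (add_le_add ?_ ?_)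
    · refine (measure_union_le _ _).trans (add_le_add ?_ ?_)
      · refine (measure_union_le _ _).trans (add_le_add ?_ ?_)
        · refine (measure_union_le _ _).trans (add_le_add ?_ ?_)
          · refine (measure_union_le _ _).trans (add_le_add ?_ ?_)
            · refine (measure_union_le _ _).trans (add_le_add ?_ ?_)
              · refine (measure_union_le _ _).trans (add_le_add ?_ ?_)
                · rw [hausdorffMeasure_segment, e1]
                · rw [hausdorffMeasure_segment, e2]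
              · rw [hausdorffMeasure_segment, e3]
            · rw [hausdorffMeasure_segment, e4]
          · rw [hausdorffMeasure_segment, e5]
        · rw [hausdorffMeasure_segment, e6]
      · rw [hausdorffMeasure_segment, e7]
    · rw [hausdorffMeasure_segment, e8]
  · rw [hausdorffMeasure_segment, e9]

end

end P6
end H11ST
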