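import Pool.Agent.Helper33.P5.Low6
import Pool.Agent.Helper33.P5.Tree6
open MeasureTheory Metric Set Filter Topology
open scoped ENNReal NNReal

/-!
# Four branching points: `N_d(t) ≥ 4` for `t ≥ 724 / 1000`
-/

namespace H11ST
namespace P6
open P5

variable {d : ℕ} {e f : E d}

theorem notQ (he : ‖e‖ = 1) (hf : ‖f‖ = 1) (hef : inner ℝ e f = (0 : ℝ)) {y : E d}
    (hy : ‖y‖ < 724 / 1000) : y ∉ range (Q e f) := by
  rintro ⟨i, rfl⟩
  have := Qnorm he hf hef i
  linarith

theorem branching (he : ‖e‖ = 1) (hf : ‖f‖ = 1) (hef : inner ℝ e f = (0 : ℝ)) {y : E d}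
    (hy : ‖y‖ < 724 / 1000) {u : Fin 3 → E d} {ε : ℝ} (h : Tri (T6 e f) y u ε) :
    ‖y‖ < 724 / 1000 ∧ IsBranchingPoint (range (Q e f)) (T6 e f) y :=
  ⟨hy, notQ he hf hef hy, u, ε, h.pos, h.norm, h.ang, h.eq⟩

theorem hy6 (he : ‖e‖ = 1) (hf : ‖f‖ = 1) (hef : inner ℝ e f = (0 : ℝ)) :
    ∀ y ∈ ({t0 e f, t1 e f, t2 e f, t3 e f} : Set (E d)), ‖y‖ < 724 / 1000 ∧
      IsBranchingPoint (range (Q e f)) (T6 e f) y := by
  rintro y (rfl | rfl | rfl | rfl)
  · exact branching he hf hef (tnorm he hf hef (by norm_num)) (TA6 he hf hef)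
  · exact branching he hf hef (tnorm he hf hef (by norm_num)) (TB6 he hf hef)
  · exact branching he hf hef (tnorm he hf hef (by norm_num)) (TC6 he hf hef)
  · exact branching he hf hef (tnorm he hf hef (by norm_num)) (TD6 he hf hef)

theorem card6 (he : ‖e‖ = 1) (hf : ‖f‖ = 1) (hef : inner ℝ e f = (0 : ℝ)) :
    ({t0 e f, t1 e f, t2 e f, t3 e f} : Set (E d)).encard = 4 := by
  have g0 : inner ℝ f (t0 e f) = (0 : ℝ) := coordf he hf hef _ _
  have g1 : inner ℝ f (t1 e f) = (3619 / 5000 : ℝ) := coordf he hf hef _ _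
  have g2 : inner ℝ f (t2 e f) = (-(3619 / 10000) : ℝ) := coordf he hf hef _ _
  have g3 : inner ℝ f (t3 e f) = (-(3619 / 10000) : ℝ) := coordf he hf hef _ _
  have c2 : inner ℝ e (t2 e f) = √3 * (-(3619 / 10000) : ℝ) := coord he hf hef _ _
  have c3 : inner ℝ e (t3 e f) = √3 * (3619 / 10000 : ℝ) := coord he hf hef _ _
  have h3 : (0 : ℝ) < √3 := by positivity
  have d01 : t0 e f ≠ t1 e f := fun h => by
    rw [h, g1] at g0; norm_num at g0
  have d02 : t0 e f ≠ t2 e f := fun h => by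
    rw [h, g2] at g0; norm_num at g0
  have d03 : t0 e f ≠ t3 e f := fun h => by
    rw [h, g3] at g0; norm_num at g0
  have d12 : t1 e f ≠ t2 e f := fun h => by
    rw [h, g2] at g1; norm_num at g1
  have d13 : t1 e f ≠ t3 e f := fun h => by
    rw [h, g3] at g1; norm_num at g1
  have d23 : t2 e f ≠ t3 e f := fun h => by
    rw [h, c3] at c2; linarith
  rw [encard_insert_of_notMem, encard_insert_of_notMem, encard_pair d23]
  · rfl
  · rintro (h | h)
    · exact d12 h
    · exact d13 h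
  · rintro (h | h | h)
    · exact d01 h
    · exact d02 h
    · exact d03 h

/-- four branching points in the ball of radius `t ≥ 724 / 1000` -/
theorem st_FIN6 : ∀ (d : ℕ), 2 ≤ d → ∀ t : ℝ, 724 / 1000 ≤ t → 4 ≤ N d t := by
  intro d hd t ht
  obtain ⟨e, f, he, hf, hef⟩ := exists_pair hd
  have hlen : μH[1] (T6 e f) ≤ ENNReal.ofReal (2922 / 625) := T6_len he hf hef
  have hadm : Admissible (range (Q e f)) (T6 e f) 0 1 :=
    { compact := (finite_range _).isCompact
      steiner := ⟨T6_closed, by rw [union_eq_left.2 T6_sub]; exact T6_conn, fun T hT hTA =>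
        hlen.trans (low he hf hef T hT hTA)⟩
      tree := T6_conn
      rpos := one_pos
      far := by
        rw [eq_empty_iff_forall_notMem]
        rintro z ⟨⟨i, rfl⟩, hzb⟩
        rw [mem_ball, dist_zero_right] at hzb
        have := Qnorm he hf hef i
        linarith
      finite := lt_of_le_of_lt hlen ENNReal.ofReal_lt_top }
  refine le_N hadm ?_
  have hs : ({t0 e f, t1 e f, t2 e f, t3 e f} : Set (E d)) ⊆
      {y ∈ ball (0 : E d) (t * 1) | IsBranchingPoint (range (Q e f)) (T6 e f) y} := by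
    intro y hyy
    obtain ⟨h1, h2⟩ := hy6 he hf hef y hyy
    refine ⟨?_, h2⟩
    rw [mem_ball, dist_zero_right, mul_one]
    linarith
  rw [← card6 he hf hef]
  exact encard_le_encard hs

end P6
end H11ST
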