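import Pool.Agent.Helper33.P5.Six
import Pool.Agent.Helper94.P5.Cert
open MeasureTheory Metric Set Filter Topology
open scoped ENNReal NNReal

/-!
# P6: four branching points, `N_d(t) ≥ 4` for `t ≥ 724 / 1000`

Six terminals just outside the unit circle, the full Steiner tree with a tripod at the origin and
three tripods of norm `3619 / 5000`, length `2922 / 625`.
-/

namespace H11ST
namespace P6
open P5

variable {d : ℕ}

/-- the terminals -/
noncomputable def Q (e f : E d) : Fin 6 → E d :=
  ![pt e f (4173 / 20000) (18649 / 20000), pt e f (-(4173 / 20000)) (18649 / 20000),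
    pt e f (-(11411 / 20000)) (-(613 / 4000)), pt e f (-(3619 / 10000)) (-(487 / 625)),
    pt e f (3619 / 10000) (-(487 / 625)), pt e f (11411 / 20000) (-(613 / 4000))]

/-- the network type `a b | m | k | c g` costs at least `2922 / 625` -/
def RA (e f : E d) (a b m k c g : Fin 6) : Prop :=
  ∀ T, NA (Q e f a) (Q e f b) (Q e f m) (Q e f k) (Q e f c) (Q e f g) T → 2922 / 625 ≤ T

/-- the network type `a b | c m | g k` costs at least `2922 / 625` -/
def RB (e f : E d) (a b c m g k : Fin 6) : Prop :=
  ∀ T, NB (Q e f a) (Q e f b) (Q e f c) (Q e f m) (Q e f g) (Q e f k) T → 2922 / 625 ≤ T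

section
variable {e f : E d}
theorem Q0 : Q e f 0 = pt e f (4173 / 20000) (18649 / 20000) := rfl
theorem Q1 : Q e f 1 = pt e f (-(4173 / 20000)) (18649 / 20000) := rfl
theorem Q2 : Q e f 2 = pt e f (-(11411 / 20000)) (-(613 / 4000)) := rfl
theorem Q3 : Q e f 3 = pt e f (-(3619 / 10000)) (-(487 / 625)) := rfl
theorem Q4 : Q e f 4 = pt e f (3619 / 10000) (-(487 / 625)) := rfl
theorem Q5 : Q e f 5 = pt e f (11411 / 20000) (-(613 / 4000)) := rfl
end

end P6
end H11ST
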