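import Pool.Agent.Helper94.P5.Five
open MeasureTheory Metric Set Filter Topology
open scoped ENNReal NNReal

/-!
Project P6: six points of a connected set are joined by a network with four nodes.
-/

namespace H11ST
namespace P6
set_option linter.unusedSectionVars false
open P5
variable {V : Type*} [NormedAddCommGroup V] [InnerProductSpace ℝ V] [MeasurableSpace V] [BorelSpace V]

/-- the network of type `a b | m | k | c d` -/
def NA (a b m k c d : V) (T : ℝ) : Prop :=
  ∃ z w w' z', dist a z + dist b z + dist z w + dist m w + dist w w' + dist k w' + dist w' z' +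
    dist c z' + dist d z' ≤ T

/-- the network of type `a b | c d | g h` -/
def NB (a b c d g h : V) (T : ℝ) : Prop :=
  ∃ w z z' z'', dist a z + dist b z + dist c z' + dist d z' + dist g z'' + dist h z'' +
    dist z w + dist z' w + dist z'' w ≤ T

/-- six points can be joined -/
def J6 (p : Fin 6 → V) (T : ℝ) : Prop :=
  ∃ f : Fin 6 → Fin 6, Function.Injective f ∧
    (NA (p (f 0)) (p (f 1)) (p (f 2)) (p (f 3)) (p (f 4)) (p (f 5)) T ∨
      NB (p (f 0)) (p (f 1)) (p (f 2)) (p (f 3)) (p (f 4)) (p (f 5)) T)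

theorem J6.perm {p : Fin 6 → V} {T : ℝ} (τ : Equiv.Perm (Fin 6)) (h : J6 (p ∘ τ) T) : J6 p T := by
  obtain ⟨f, hf, h⟩ := h
  exact ⟨τ ∘ f, τ.injective.comp hf, h⟩

theorem NA.mono {a b m k c d : V} {T T' : ℝ} (h : NA a b m k c d T) (hT : T ≤ T') :
    NA a b m k c d T' := by
  obtain ⟨z, w, w', z', hz⟩ := h
  exact ⟨z, w, w', z', hz.trans hT⟩

theorem NB.mono {a b c d g h : V} {T T' : ℝ} (hh : NB a b c d g h T) (hT : T ≤ T') :
    NB a b c d g h T' := by
  obtain ⟨w, z, z', z'', hz⟩ := hh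
  exact ⟨w, z, z', z'', hz.trans hT⟩

theorem J6.mono {p : Fin 6 → V} {T T' : ℝ} (h : J6 p T) (hT : T ≤ T') : J6 p T' := by
  obtain ⟨f, hf, h | h⟩ := h
  · exact ⟨f, hf, Or.inl (h.mono hT)⟩
  · exact ⟨f, hf, Or.inr (h.mono hT)⟩

theorem J6.move {p q : Fin 6 → V} {T : ℝ} (h : J6 p T) : J6 q (T + ∑ i, dist (q i) (p i)) := by
  obtain ⟨f, hf, h⟩ := h
  have hb : Function.Bijective f := Finite.injective_iff_bijective.1 hf
  have h1 : ∑ i, dist (q i) (p i) = ∑ i, dist (q (f i)) (p (f i)) :=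
    (Equiv.sum_comp (Equiv.ofBijective f hb) fun i => dist (q i) (p i)).symm
  refine ⟨f, hf, ?_⟩
  rw [h1, Fin.sum_univ_six]
  rcases h with ⟨z, w, w', z', hz⟩ | ⟨w, z, z', z'', hz⟩
  · left
    refine ⟨z, w, w', z', ?_⟩
    linarith [dist_triangle (q (f 0)) (p (f 0)) z, dist_triangle (q (f 1)) (p (f 1)) z,
      dist_triangle (q (f 2)) (p (f 2)) w, dist_triangle (q (f 3)) (p (f 3)) w',
      dist_triangle (q (f 4)) (p (f 4)) z', dist_triangle (q (f 5)) (p (f 5)) z']
  · right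
    refine ⟨w, z, z', z'', ?_⟩
    linarith [dist_triangle (q (f 0)) (p (f 0)) z, dist_triangle (q (f 1)) (p (f 1)) z,
      dist_triangle (q (f 2)) (p (f 2)) z', dist_triangle (q (f 3)) (p (f 3)) z',
      dist_triangle (q (f 4)) (p (f 4)) z'', dist_triangle (q (f 5)) (p (f 5)) z'']

/-- distinctness from the values -/
theorem inj6 {a b c d g h : Fin 6} (h1 : a ≠ b) (h2 : a ≠ c) (h3 : a ≠ d) (h4 : a ≠ g) (h5 : a ≠ h)
    (h6 : b ≠ c) (h7 : b ≠ d) (h8 : b ≠ g) (h9 : b ≠ h) (h10 : c ≠ d) (h11 : c ≠ g) (h12 : c ≠ h)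
    (h13 : d ≠ g) (h14 : d ≠ h) (h15 : g ≠ h) :
    Function.Injective (![a, b, c, d, g, h] : Fin 6 → Fin 6) := by
  intro i j hij
  fin_cases i <;> fin_cases j <;> first
    | rfl
    | (exfalso
       simp only [Fin.zero_eta, Fin.mk_one, Fin.reduceFinMk, Matrix.cons_val_zero,
         Matrix.cons_val_one, Matrix.cons_val] at hij
       first
         | exact h1 hij | exact h2 hij | exact h3 hij | exact h4 hij | exact h5 hij
         | exact h6 hij | exact h7 hij | exact h8 hij | exact h9 hij | exact h10 hij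
         | exact h11 hij | exact h12 hij | exact h13 hij | exact h14 hij | exact h15 hij
         | exact h1 hij.symm | exact h2 hij.symm | exact h3 hij.symm | exact h4 hij.symm
         | exact h5 hij.symm | exact h6 hij.symm | exact h7 hij.symm | exact h8 hij.symm
         | exact h9 hij.symm | exact h10 hij.symm | exact h11 hij.symm | exact h12 hij.symm
         | exact h13 hij.symm | exact h14 hij.symm | exact h15 hij.symm)

theorem ofNA {p : Fin 6 → V} {T : ℝ} (a b c d g h : Fin 6)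
    (hi : Function.Injective (![a, b, c, d, g, h] : Fin 6 → Fin 6))
    (hn : NA (p a) (p b) (p c) (p d) (p g) (p h) T) : J6 p T :=
  ⟨![a, b, c, d, g, h], hi, Or.inl hn⟩

theorem ofNB {p : Fin 6 → V} {T : ℝ} (a b c d g h : Fin 6)
    (hi : Function.Injective (![a, b, c, d, g, h] : Fin 6 → Fin 6))
    (hn : NB (p a) (p b) (p c) (p d) (p g) (p h) T) : J6 p T :=
  ⟨![a, b, c, d, g, h], hi, Or.inr hn⟩

/-- the first five of six points and `w` -/
theorem sub_five {q : Fin 6 → V} {w : V} {T c : ℝ}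
    (h : J5 ![q 0, q 1, q 2, q 3, w] T) (h4 : dist (q 4) w ≤ c) (h5 : dist (q 5) w ≤ c) :
    J6 q (T + 2 * c) := by
  obtain ⟨σ, hσ⟩ := h
  have hinj := σ.injective
  -- the position of the last point
  have hlt : ∀ i, σ i ≠ 4 → ∃ j : Fin 6, (j : ℕ) = σ i ∧ (j : ℕ) < 4 ∧
      (![q 0, q 1, q 2, q 3, w] : Fin 5 → V) (σ i) = q j := by
    intro i hi
    generalize σ i = s at hi
    fin_cases s
    · exact ⟨0, rfl, by decide, rfl⟩
    · exact ⟨1, rfl, by decide, rfl⟩
    · exact ⟨2, rfl, by decide, rfl⟩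
    · exact ⟨3, rfl, by decide, rfl⟩
    · exact absurd rfl hi
  have hne : ∀ i j, i ≠ j → (σ i : ℕ) ≠ σ j := fun i j hij h => hij (hinj (Fin.ext h))
  have hneq : ∀ i j : Fin 6, (i : ℕ) ≠ j → i ≠ j := fun i j h h' => h (by rw [h'])
  obtain ⟨k, hk⟩ := σ.surjective 4
  have hw : (![q 0, q 1, q 2, q 3, w] : Fin 5 → V) (σ k) = w := by rw [hk]; rfl
  have hoth : ∀ i, i ≠ k → σ i ≠ 4 := fun i hi h => hi (hinj (by rw [h, hk]))
  obtain ⟨z, v, z', hz⟩ := hσ
  have g4 : ((4 : Fin 6) : ℕ) = 4 := rfl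
  have g5 : ((5 : Fin 6) : ℕ) = 5 := rfl
  fin_cases k
  · obtain ⟨j1, e1, l1, r1⟩ := hlt 1 (hoth 1 (by decide))
    obtain ⟨j2, e2, l2, r2⟩ := hlt 2 (hoth 2 (by decide))
    obtain ⟨j3, e3, l3, r3⟩ := hlt 3 (hoth 3 (by decide))
    obtain ⟨j4, e4, l4, r4⟩ := hlt 4 (hoth 4 (by decide))
    have n12 := hne 1 2 (by decide)
    have n13 := hne 1 3 (by decide)
    have n14 := hne 1 4 (by decide)
    have n23 := hne 2 3 (by decide)
    have n24 := hne 2 4 (by decide)
    have n34 := hne 3 4 (by decide)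
    simp only [Fin.zero_eta] at hw
    rw [hw, r1, r2, r3, r4] at hz
    refine ofNA 4 5 j1 j2 j3 j4 (inj6 (by decide) (hneq _ _ (by omega)) (hneq _ _ (by omega))
      (hneq _ _ (by omega)) (hneq _ _ (by omega)) (hneq _ _ (by omega)) (hneq _ _ (by omega))
      (hneq _ _ (by omega)) (hneq _ _ (by omega)) (hneq _ _ (by omega)) (hneq _ _ (by omega))
      (hneq _ _ (by omega)) (hneq _ _ (by omega)) (hneq _ _ (by omega)) (hneq _ _ (by omega))) ?_
    refine ⟨w, z, v, z', ?_⟩
    linarith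
  · obtain ⟨j0, e0, l0, r0⟩ := hlt 0 (hoth 0 (by decide))
    obtain ⟨j2, e2, l2, r2⟩ := hlt 2 (hoth 2 (by decide))
    obtain ⟨j3, e3, l3, r3⟩ := hlt 3 (hoth 3 (by decide))
    obtain ⟨j4, e4, l4, r4⟩ := hlt 4 (hoth 4 (by decide))
    have n02 := hne 0 2 (by decide)
    have n03 := hne 0 3 (by decide)
    have n04 := hne 0 4 (by decide)
    have n23 := hne 2 3 (by decide)
    have n24 := hne 2 4 (by decide)
    have n34 := hne 3 4 (by decide)
    simp only [Fin.mk_one] at hw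
    rw [hw, r0, r2, r3, r4] at hz
    refine ofNA 4 5 j0 j2 j3 j4 (inj6 (by decide) (hneq _ _ (by omega)) (hneq _ _ (by omega))
      (hneq _ _ (by omega)) (hneq _ _ (by omega)) (hneq _ _ (by omega)) (hneq _ _ (by omega))
      (hneq _ _ (by omega)) (hneq _ _ (by omega)) (hneq _ _ (by omega)) (hneq _ _ (by omega))
      (hneq _ _ (by omega)) (hneq _ _ (by omega)) (hneq _ _ (by omega)) (hneq _ _ (by omega))) ?_
    refine ⟨w, z, v, z', ?_⟩
    linarith
  · obtain ⟨j0, e0, l0, r0⟩ := hlt 0 (hoth 0 (by decide))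
    obtain ⟨j1, e1, l1, r1⟩ := hlt 1 (hoth 1 (by decide))
    obtain ⟨j3, e3, l3, r3⟩ := hlt 3 (hoth 3 (by decide))
    obtain ⟨j4, e4, l4, r4⟩ := hlt 4 (hoth 4 (by decide))
    have n01 := hne 0 1 (by decide)
    have n03 := hne 0 3 (by decide)
    have n04 := hne 0 4 (by decide)
    have n13 := hne 1 3 (by decide)
    have n14 := hne 1 4 (by decide)
    have n34 := hne 3 4 (by decide)
    simp only [Fin.reduceFinMk] at hw
    rw [hw, r0, r1, r3, r4] at hz
    refine ofNB j0 j1 4 5 j3 j4 (inj6 (hneq _ _ (by omega)) (hneq _ _ (by omega))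
      (hneq _ _ (by omega)) (hneq _ _ (by omega)) (hneq _ _ (by omega)) (hneq _ _ (by omega))
      (hneq _ _ (by omega)) (hneq _ _ (by omega)) (hneq _ _ (by omega)) (by decide)
      (hneq _ _ (by omega)) (hneq _ _ (by omega)) (hneq _ _ (by omega)) (hneq _ _ (by omega))
      (hneq _ _ (by omega))) ?_
    refine ⟨v, z, w, z', ?_⟩
    rw [dist_comm z' v]
    linarith
  · obtain ⟨j0, e0, l0, r0⟩ := hlt 0 (hoth 0 (by decide))
    obtain ⟨j1, e1, l1, r1⟩ := hlt 1 (hoth 1 (by decide))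
    obtain ⟨j2, e2, l2, r2⟩ := hlt 2 (hoth 2 (by decide))
    obtain ⟨j4, e4, l4, r4⟩ := hlt 4 (hoth 4 (by decide))
    have n01 := hne 0 1 (by decide)
    have n02 := hne 0 2 (by decide)
    have n04 := hne 0 4 (by decide)
    have n12 := hne 1 2 (by decide)
    have n14 := hne 1 4 (by decide)
    have n24 := hne 2 4 (by decide)
    simp only [Fin.reduceFinMk] at hw
    rw [hw, r0, r1, r2, r4] at hz
    refine ofNA j0 j1 j2 j4 4 5 (inj6 (hneq _ _ (by omega)) (hneq _ _ (by omega))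
      (hneq _ _ (by omega)) (hneq _ _ (by omega)) (hneq _ _ (by omega)) (hneq _ _ (by omega))
      (hneq _ _ (by omega)) (hneq _ _ (by omega)) (hneq _ _ (by omega)) (hneq _ _ (by omega))
      (hneq _ _ (by omega)) (hneq _ _ (by omega)) (hneq _ _ (by omega)) (hneq _ _ (by omega))
      (by decide)) ?_
    refine ⟨z, v, z', w, ?_⟩
    rw [dist_comm z' w]
    linarith
  · obtain ⟨j0, e0, l0, r0⟩ := hlt 0 (hoth 0 (by decide))
    obtain ⟨j1, e1, l1, r1⟩ := hlt 1 (hoth 1 (by decide))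
    obtain ⟨j2, e2, l2, r2⟩ := hlt 2 (hoth 2 (by decide))
    obtain ⟨j3, e3, l3, r3⟩ := hlt 3 (hoth 3 (by decide))
    have n01 := hne 0 1 (by decide)
    have n02 := hne 0 2 (by decide)
    have n03 := hne 0 3 (by decide)
    have n12 := hne 1 2 (by decide)
    have n13 := hne 1 3 (by decide)
    have n23 := hne 2 3 (by decide)
    simp only [Fin.reduceFinMk] at hw
    rw [hw, r0, r1, r2, r3] at hz
    refine ofNA j0 j1 j2 j3 4 5 (inj6 (hneq _ _ (by omega)) (hneq _ _ (by omega))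
      (hneq _ _ (by omega)) (hneq _ _ (by omega)) (hneq _ _ (by omega)) (hneq _ _ (by omega))
      (hneq _ _ (by omega)) (hneq _ _ (by omega)) (hneq _ _ (by omega)) (hneq _ _ (by omega))
      (hneq _ _ (by omega)) (hneq _ _ (by omega)) (hneq _ _ (by omega)) (hneq _ _ (by omega))
      (by decide)) ?_
    refine ⟨z, v, z', w, ?_⟩
    rw [dist_comm z' w]
    linarith

theorem six {η : ℝ} {U : Set V} {s : ℝ} (h : Chain η U s) :
    ∀ p : Fin 6 → V, (∀ i, p i ∈ U) → J6 p (s + 4 * η) := by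
  classical
  induction h with
  | base O c hc0 hc hη =>
    intro p hp
    refine ofNA 0 1 2 3 4 5 (by decide) ⟨p 0, p 0, p 0, p 0, ?_⟩
    simp only [dist_self]
    linarith [hc _ (hp 1) _ (hp 0), hc _ (hp 2) _ (hp 0), hc _ (hp 3) _ (hp 0),
      hc _ (hp 4) _ (hp 0), hc _ (hp 5) _ (hp 0)]
  | step U s O c hU w hwU hwO hc0 hc hη ih =>
    have hs := hU.nonneg
    intro p hp
    -- sort
    set key : Fin 6 → ℕ := fun i => if p i ∈ U then 0 else 1 with hkey
    set σ := Tuple.sort key with hσ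
    have hmono : Monotone (key ∘ σ) := Tuple.monotone_sort key
    refine J6.perm σ ?_
    set q : Fin 6 → V := p ∘ σ with hq
    have hqm : ∀ i j, i ≤ j → q j ∈ U → q i ∈ U := by
      intro i j hij hj
      have h1 := hmono hij
      simp only [Function.comp_apply, hkey] at h1
      have h2 : p (σ j) ∈ U := hj
      rw [if_pos h2] at h1
      by_contra hi
      have h3 : p (σ i) ∉ U := hi
      rw [if_neg h3] at h1
      omega
    have hqO : ∀ i, q i ∉ U → q i ∈ O := fun i hi => (hp (σ i)).resolve_left hi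
    clear_value q
    by_cases h5 : q 5 ∈ U
    · exact (ih q fun i => hqm i 5 (Fin.le_last i) h5).mono (by linarith)
    have o5 := hqO 5 h5
    have e5 := hc _ o5 _ hwO
    by_cases h4 : q 4 ∈ U
    · -- five points in U
      have h3 := hqm 3 4 (by decide) h4
      have h2 := hqm 2 4 (by decide) h4
      have h1 := hqm 1 4 (by decide) h4
      have h0 := hqm 0 4 (by decide) h4
      have k := ih ![q 0, q 1, q 2, q 3, q 4, w] (by
        intro i
        fin_cases i
        · exact h0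
        · exact h1
        · exact h2
        · exact h3
        · exact h4
        · exact hwU)
      have k2 := k.move (q := q)
      rw [Fin.sum_univ_six] at k2
      simp only [Matrix.cons_val_zero, Matrix.cons_val_one, Matrix.cons_val, dist_self] at k2
      exact k2.mono (by linarith)
    have o4 := hqO 4 h4
    have e4 := hc _ o4 _ hwO
    by_cases h3 : q 3 ∈ U
    · have h2 := hqm 2 3 (by decide) h3
      have h1 := hqm 1 3 (by decide) h3
      have h0 := hqm 0 3 (by decide) h3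
      have k := P5.five hU ![q 0, q 1, q 2, q 3, w] (by
        intro i
        fin_cases i
        · exact h0
        · exact h1
        · exact h2
        · exact h3
        · exact hwU)
      exact (sub_five k e4 e5).mono (by linarith)
    have o3 := hqO 3 h3
    have e3 := hc _ o3 _ hwO
    by_cases h2 : q 2 ∈ U
    · have h1 := hqm 1 2 (by decide) h2
      have h0 := hqm 0 2 (by decide) h2
      rcases hU.four _ h0 _ h1 _ h2 _ hwU with ⟨z, z', hz⟩ | ⟨z, z', hz⟩ | ⟨z, z', hz⟩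
      · refine ofNA 0 1 2 3 4 5 (by decide) ⟨z, z', w, w, ?_⟩
        rw [dist_comm z' w, dist_self]
        linarith
      · refine ofNA 0 2 1 3 4 5 (by decide) ⟨z, z', w, w, ?_⟩
        rw [dist_comm z' w, dist_self]
        linarith
      · refine ofNA 2 1 0 3 4 5 (by decide) ⟨z', z, w, w, ?_⟩
        rw [dist_comm z w, dist_comm z' z, dist_self]
        linarith
    have o2 := hqO 2 h2
    have e2 := hc _ o2 _ hwO
    by_cases h1 : q 1 ∈ U
    · have h0 := hqm 0 1 (by decide) h1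
      obtain ⟨z, hz⟩ := hU.three _ h0 _ h1 _ hwU
      refine ofNA 0 1 2 3 4 5 (by decide) ⟨z, w, w, w, ?_⟩
      rw [dist_comm z w, dist_self]
      linarith
    have o1 := hqO 1 h1
    have e1 := hc _ o1 _ hwO
    by_cases h0 : q 0 ∈ U
    · refine ofNA 0 1 2 3 4 5 (by decide) ⟨w, w, w, w, ?_⟩
      rw [dist_self]
      linarith [hU.two _ h0 _ hwU]
    · have f1 := hc _ o1 _ (hqO 0 h0)
      have f2 := hc _ o2 _ (hqO 0 h0)
      have f3 := hc _ o3 _ (hqO 0 h0)
      have f4 := hc _ o4 _ (hqO 0 h0)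
      have f5 := hc _ o5 _ (hqO 0 h0)
      refine ofNA 0 1 2 3 4 5 (by decide) ⟨q 0, q 0, q 0, q 0, ?_⟩
      simp only [dist_self]
      linarith

/-- dual lower bound, type A -/
theorem NA_lower {a b m k c d : V} {T : ℝ} (h : NA a b m k c d T) {ea eb em ek ec ed : V}
    (h1 : ‖ea‖ ≤ 1) (h2 : ‖eb‖ ≤ 1) (h3 : ‖em‖ ≤ 1) (h4 : ‖ek‖ ≤ 1) (h5 : ‖ec‖ ≤ 1)
    (h6 : ‖ed‖ ≤ 1) (hsum : ea + eb + em + ek + ec + ed = 0) (h7 : ‖ea + eb‖ ≤ 1)
    (h8 : ‖ea + eb + em‖ ≤ 1) (h9 : ‖ec + ed‖ ≤ 1) :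
    inner ℝ ea a + inner ℝ eb b + inner ℝ em m + inner ℝ ek k + inner ℝ ec c + inner ℝ ed d ≤
      T := by
  obtain ⟨z, w, w', z', hz⟩ := h
  have i1 := inner_le_dist h1 a z
  have i2 := inner_le_dist h2 b z
  have i3 := inner_le_dist h3 m w
  have i4 := inner_le_dist h4 k w'
  have i5 := inner_le_dist h5 c z'
  have i6 := inner_le_dist h6 d z'
  have i7 := inner_le_dist h7 z w
  have i8 := inner_le_dist h8 w w'
  have i9 := inner_le_dist h9 z' w'
  rw [inner_sub_right] at i1 i2 i3 i4 i5 i6 i7 i8 i9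
  have i10 : inner ℝ ea w' + inner ℝ eb w' + inner ℝ em w' + inner ℝ ek w' + inner ℝ ec w' +
      inner ℝ ed w' = 0 := by
    rw [← inner_add_left, ← inner_add_left, ← inner_add_left, ← inner_add_left,
      ← inner_add_left, hsum, inner_zero_left]
  rw [inner_add_left, inner_add_left] at i7 i9
  rw [inner_add_left, inner_add_left, inner_add_left, inner_add_left] at i8
  rw [dist_comm z' w'] at i9
  linarith

/-- dual lower bound, type B -/
theorem NB_lower {a b c d g k : V} {T : ℝ} (h : NB a b c d g k T) {ea eb ec ed eg ek : V}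
    (h1 : ‖ea‖ ≤ 1) (h2 : ‖eb‖ ≤ 1) (h3 : ‖ec‖ ≤ 1) (h4 : ‖ed‖ ≤ 1) (h5 : ‖eg‖ ≤ 1)
    (h6 : ‖ek‖ ≤ 1) (hsum : ea + eb + ec + ed + eg + ek = 0) (h7 : ‖ea + eb‖ ≤ 1)
    (h8 : ‖ec + ed‖ ≤ 1) (h9 : ‖eg + ek‖ ≤ 1) :
    inner ℝ ea a + inner ℝ eb b + inner ℝ ec c + inner ℝ ed d + inner ℝ eg g + inner ℝ ek k ≤
      T := by
  obtain ⟨w, z, z', z'', hz⟩ := h
  have i1 := inner_le_dist h1 a z
  have i2 := inner_le_dist h2 b z
  have i3 := inner_le_dist h3 c z'
  have i4 := inner_le_dist h4 d z'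
  have i5 := inner_le_dist h5 g z''
  have i6 := inner_le_dist h6 k z''
  have i7 := inner_le_dist h7 z w
  have i8 := inner_le_dist h8 z' w
  have i9 := inner_le_dist h9 z'' w
  rw [inner_sub_right] at i1 i2 i3 i4 i5 i6 i7 i8 i9
  have i10 : inner ℝ ea w + inner ℝ eb w + inner ℝ ec w + inner ℝ ed w + inner ℝ eg w +
      inner ℝ ek w = 0 := by
    rw [← inner_add_left, ← inner_add_left, ← inner_add_left, ← inner_add_left,
      ← inner_add_left, hsum, inner_zero_left]
  rw [inner_add_left, inner_add_left] at i7 i8 i9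
  linarith

/-- lower bound for the length of a connected set through six points -/
theorem six_lower [ProperSpace V] {X : Set V} (hX : IsPreconnected X) (hcl : IsClosed X)
    (hfin : μH[1] X ≠ ∞) {p : Fin 6 → V} (hp : ∀ i, p i ∈ X) {L : ℝ}
    (hL : ∀ T, J6 p T → L ≤ T) : L ≤ (μH[1] X).toReal := by
  have hcomp := compact_of_conn hX hcl ⟨p 0, hp 0⟩ hfin
  refine le_of_forall_pos_le_add fun η hη => ?_
  obtain ⟨U, s, hU, hXU, hs⟩ := exists_chain hcomp hX ⟨p 0, hp 0⟩ hfin
    (show (0 : ℝ) < η / 5 by linarith)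
  have h1 := hL _ (six hU p fun i => hXU (hp i))
  linarith

end P6
end H11ST
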